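import Pool.Agent.H32.SSE.Chain

open Matrix

namespace Pool.Agent.H32.SSC

open Pool.Agent.H32.SSE

variable {κ β : Type} [Fintype κ] [DecidableEq κ] [Fintype β] [DecidableEq β]

/-- The block matrix `[[T, Z], [0, W]]`. -/
abbrev M (T : Matrix κ κ ℕ) (Z : Matrix κ β ℕ) (W : Matrix β β ℕ) : Matrix (κ ⊕ β) (κ ⊕ β) ℕ :=
  fromBlocks T Z 0 W

theorem liftT {T T' R S : Matrix κ κ ℕ} {k : ℕ} (h : Ch T T' R S k) (Y : Matrix κ β ℕ)
    (W : Matrix β β ℕ) :
    ∃ X : Matrix κ β ℕ, Ch (M T Y W) (M T' (S * Y) W)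
      (fromBlocks R X 0 (W ^ k)) (fromBlocks S 0 0 1) k := by
  induction h with
  | refl =>
    refine ⟨0, ?_⟩
    have := Ch.refl (M T Y W)
    simpa using this
  | step P Q _ ih =>
    rename_i R S k _
    obtain ⟨X, hX⟩ := ih
    have e1 : M (P * Q) (S * Y) W =
        fromBlocks P (S * Y) 0 W * fromBlocks Q 0 0 (1 : Matrix β β ℕ) := by
      rw [fromBlocks_multiply]; simp
    rw [e1] at hX
    refine ⟨R * (S * Y) + X * W, ?_⟩
    have := Ch.step _ _ hX
    simp only [fromBlocks_multiply] at this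
    simpa [pow_succ, Matrix.mul_assoc] using this

theorem liftW {W W' R S : Matrix β β ℕ} {k : ℕ} (h : Ch W W' R S k) (T : Matrix κ κ ℕ)
    (Y : Matrix κ β ℕ) :
    ∃ X : Matrix κ β ℕ, Ch (M T Y W) (M T (Y * R) W')
      (fromBlocks 1 0 0 R) (fromBlocks (T ^ k) X 0 S) k := by
  induction h with
  | refl =>
    refine ⟨0, ?_⟩
    have := Ch.refl (M T Y W)
    simpa using this
  | step P Q _ ih =>
    rename_i R S k _
    obtain ⟨X, hX⟩ := ih
    have e1 : M T (Y * R) (P * Q) =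
        fromBlocks (1 : Matrix κ κ ℕ) 0 0 P * fromBlocks T (Y * R) 0 Q := by
      rw [fromBlocks_multiply]; simp
    rw [e1] at hX
    refine ⟨T * X + Y * R * S, ?_⟩
    have := Ch.step _ _ hX
    simp only [fromBlocks_multiply] at this
    simpa [pow_succ', Matrix.mul_assoc] using this

theorem Ch_pow (W : Matrix β β ℕ) (b : ℕ) : Ch W W (W ^ b) 1 b := by
  induction b with
  | zero => simpa using Ch.refl W
  | succ b ih =>
    have h := ih.trans (Ch.one' (A := W) (B := W) (P := W) (Q := 1) (by simp) (by simp))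
    simpa [pow_succ] using h

theorem wshift (T : Matrix κ κ ℕ) (Z : Matrix κ β ℕ) (W : Matrix β β ℕ) (b : ℕ) :
    ∃ S, Ch (M T Z W) (M T (Z * W ^ b) W) (fromBlocks 1 0 0 (W ^ b)) S b := by
  obtain ⟨X, h⟩ := liftW (Ch_pow W b) T Z
  exact ⟨_, h⟩

theorem tshift (T : Matrix κ κ ℕ) (Z : Matrix κ β ℕ) (W : Matrix β β ℕ) (a : ℕ) :
    ∃ S, Ch (M T (T ^ a * Z) W) (M T Z W) (fromBlocks (T ^ a) 0 0 1) S a := by
  obtain ⟨X, h⟩ := liftT (Ch_pow T a).symm Z W
  exact ⟨_, h.symm⟩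

/-- the basic move -/
theorem round (T : Matrix κ κ ℕ) {Z Z' σ : Matrix κ β ℕ} {W : Matrix β β ℕ}
    (h : Z + T * σ = Z' + σ * W) (hle : ∀ p q, (σ * W) p q ≤ Z p q) :
    ∃ S, Ch (M T Z W) (M T Z' W) (fromBlocks 1 σ 0 1) S 1 := by
  set X : Matrix κ β ℕ := fun p q => Z p q - (σ * W) p q with hX
  have e1 : X + σ * W = Z := by
    ext p q
    have := hle p q
    simp only [hX, Matrix.add_apply]
    omega
  have e2 : T * σ + X = Z' := by
    have : Z' + σ * W = (T * σ + X) + σ * W := by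
      rw [← h, add_assoc, e1, add_comm]
    exact (add_right_cancel this).symm
  refine ⟨fromBlocks T X 0 W, Ch.one' ?_ ?_⟩
  · simp only [fromBlocks_multiply, Matrix.mul_one, Matrix.one_mul,
      Matrix.mul_zero, Matrix.zero_mul, add_zero, zero_add, e1]
  · simp only [fromBlocks_multiply, Matrix.mul_one, Matrix.one_mul, Matrix.mul_zero,
      Matrix.zero_mul, add_zero, zero_add, e2]

theorem U_mul (σ τ : Matrix κ β ℕ) :
    (fromBlocks (1 : Matrix κ κ ℕ) σ 0 (1 : Matrix β β ℕ)) * fromBlocks 1 τ 0 1 =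
      fromBlocks 1 (σ + τ) 0 1 := by
  rw [fromBlocks_multiply]; simp [add_comm]

end Pool.Agent.H32.SSC
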