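import Pool.Agent.H32.SSC.Core

open Matrix

namespace Pool.Agent.H32.SSC

open Pool.Agent.H32.SSE

variable {β : Type} [Fintype β] [DecidableEq β]

theorem diag_Wt (ρ : Equiv.Perm β) (d v : β → ℕ) :
    diagonal d * Wt ρ v = Wt ρ (fun q => d q * v q) := by
  ext q q'
  rw [Matrix.diagonal_mul]
  by_cases h : q' = ρ q <;> simp [Wt, h]

theorem Wt_diag (ρ : Equiv.Perm β) (d v : β → ℕ) :
    Wt ρ v * diagonal d = Wt ρ (fun q => v q * d (ρ q)) := by
  ext q q'
  rw [Matrix.mul_diagonal]
  by_cases h : q' = ρ q <;> simp [Wt, h]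

theorem exists_prime {ρ : Equiv.Perm β} (hρ : ∀ q q', ∃ k : ℕ, (ρ ^ k) q = q')
    {w w' r : β → ℕ} (he : ∀ q, w q * r (ρ q) = r q * w' q)
    (hp : ∀ p : ℕ, p.Prime → ∀ q, p ∣ r q → p ∣ ∏ q, w q) {q1 : β} (hq1 : r q1 ≠ 1) :
    ∃ q p, p.Prime ∧ p ∣ r q ∧ p ∣ w q := by
  by_contra hc
  push Not at hc
  have h1 : ∀ q, r q ∣ r (ρ q) := by
    intro q
    have hcop : Nat.Coprime (r q) (w q) := by
      rw [Nat.coprime_iff_gcd_eq_one]
      by_contra hg
      obtain ⟨p, hpp, hpd⟩ := Nat.exists_prime_and_dvd hg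
      exact hc q p hpp (hpd.trans (Nat.gcd_dvd_left _ _)) (hpd.trans (Nat.gcd_dvd_right _ _))
    exact hcop.dvd_of_dvd_mul_left (Dvd.intro _ (he q).symm)
  have h2 : ∀ (k : ℕ) q, r q ∣ r ((ρ ^ k) q) := by
    intro k q
    induction k with
    | zero => exact dvd_rfl
    | succ k ih =>
      rw [pow_succ', Equiv.Perm.mul_apply]
      exact ih.trans (h1 _)
  have h3 : ∀ q, r q1 ∣ r q := by
    intro q
    obtain ⟨k, hk⟩ := hρ q1 q
    rw [← hk]
    exact h2 k q1
  obtain ⟨p, hpp, hpd⟩ := Nat.exists_prime_and_dvd hq1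
  have h4 := hp p hpp q1 hpd
  obtain ⟨q, -, hq⟩ := (Prime.dvd_finset_prod_iff hpp.prime w).1 h4
  exact hc q p hpp (hpd.trans (h3 q)) hq

theorem comp {ρ : Equiv.Perm β} (hρ : ∀ q q', ∃ k : ℕ, (ρ ^ k) q = q') (n : ℕ) :
    ∀ w w' r : β → ℕ, ∑ q, r q = n → (∀ q, w q ≠ 0) → (∀ q, r q ≠ 0) →
      (∀ q, w q * r (ρ q) = r q * w' q) → (∀ p : ℕ, p.Prime → ∀ q, p ∣ r q → p ∣ ∏ q, w q) →
      ∃ S k, Ch (Wt ρ w) (Wt ρ w') (diagonal r) S k := by
  induction n using Nat.strong_induction_on with
  | _ n ih =>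
    intro w w' r hn hw hr he hp
    by_cases hr1 : ∀ q, r q = 1
    · have e1 : r = fun _ => 1 := funext hr1
      have e2 : w = w' := by
        funext q
        have := he q
        rw [hr1, hr1, mul_one, one_mul] at this
        exact this
      subst e2
      refine ⟨1, 0, ?_⟩
      rw [e1]
      have := Ch.refl (Wt ρ w)
      simpa using this
    · push Not at hr1
      obtain ⟨q1, hq1⟩ := hr1
      obtain ⟨q0, p, hpp, hp1, hp2⟩ := exists_prime hρ he hp hq1
      set d : β → ℕ := fun q => if q = q0 then p else 1 with hd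
      have hd0 : ∀ q, d q ≠ 0 := by
        intro q
        simp only [hd]
        split_ifs
        · exact hpp.ne_zero
        · exact one_ne_zero
      have hdw : ∀ q, d q ∣ w q := by
        intro q
        simp only [hd]
        split_ifs with hc
        · rw [hc]; exact hp2
        · exact one_dvd _
      have hdr : ∀ q, d q ∣ r q := by
        intro q
        simp only [hd]
        split_ifs with hc
        · rw [hc]; exact hp1
        · exact one_dvd _
      choose v hv using hdw
      choose r1 hr1 using hdr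
      set w1 : β → ℕ := fun q => v q * d (ρ q) with hw1
      have c1 : Ch (Wt ρ w) (Wt ρ w1) (diagonal d) (Wt ρ v) 1 := by
        refine Ch.one' ?_ ?_
        · rw [diag_Wt]
          congr 1
          funext q
          exact hv q
        · rw [Wt_diag]
      have hv0 : ∀ q, v q ≠ 0 := fun q h => hw q (by rw [hv q, h, mul_zero])
      have hr10 : ∀ q, r1 q ≠ 0 := fun q h => hr q (by rw [hr1 q, h, mul_zero])
      have he1 : ∀ q, w1 q * r1 (ρ q) = r1 q * w' q := by
        intro q
        have := he q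
        rw [hv q, hr1 q, hr1 (ρ q)] at this
        have h2 : d q * (w1 q * r1 (ρ q)) = d q * (r1 q * w' q) := by
          simp only [hw1]
          linarith
        exact Nat.eq_of_mul_eq_mul_left (Nat.pos_of_ne_zero (hd0 q)) h2
      have hprod : ∏ q, w1 q = ∏ q, w q := by
        simp only [hw1]
        rw [Finset.prod_mul_distrib, Equiv.prod_comp ρ d, ← Finset.prod_mul_distrib]
        apply Finset.prod_congr rfl
        intro q _
        rw [hv q, Nat.mul_comm]
      have hlt : ∑ q, r1 q < n := by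
        rw [← hn]
        refine Finset.sum_lt_sum (fun q _ => ?_) ⟨q0, Finset.mem_univ _, ?_⟩
        · rw [hr1 q]
          exact Nat.le_mul_of_pos_left _ (Nat.pos_of_ne_zero (hd0 q))
        · have h1 : d q0 = p := by simp [hd]
          have h2 := hr10 q0
          have h3 := hpp.two_le
          have h4 := hr1 q0
          rw [h1] at h4
          rw [h4]
          nlinarith [Nat.pos_of_ne_zero h2]
      obtain ⟨S, k, hS⟩ := ih _ hlt w1 w' r1 rfl
        (fun q => Nat.mul_ne_zero (hv0 q) (hd0 _)) hr10 he1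
        (fun p' hp' q hq => by
          rw [hprod]
          exact hp p' hp' q (hq.trans (Dvd.intro_left _ (hr1 q).symm)))
      refine ⟨_, _, (c1.trans hS).castR ?_⟩
      rw [Matrix.diagonal_mul_diagonal]
      congr 1
      funext q
      exact (hr1 q).symm

end Pool.Agent.H32.SSC
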