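import Pool.Agent.H32.SSC.Path

open Matrix

namespace Pool.Agent.H32.SSC

open Pool.Agent.H32.SSE

variable {κ β : Type} [Fintype κ] [DecidableEq κ] [Fintype β] [DecidableEq β]

theorem Wt_pow_apply {ρ : Equiv.Perm β} {w : β → ℕ} (hw : ∀ q, w q ≠ 0) {k : ℕ} {q q' : β}
    (h : ((Wt ρ w) ^ k) q q' ≠ 0) : q' = (ρ ^ k) q := by
  obtain ⟨v, h1, -, -⟩ := Wt_pow ρ hw k
  rw [h1] at h
  by_contra hc
  exact h (by simp [Wt, hc])

theorem Wt_pow_apply' {ρ : Equiv.Perm β} {w : β → ℕ} (hw : ∀ q, w q ≠ 0) (k : ℕ) (q : β) :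
    ((Wt ρ w) ^ k) q ((ρ ^ k) q) ≠ 0 := by
  obtain ⟨v, h1, h2, -⟩ := Wt_pow ρ hw k
  rw [h1]
  simpa [Wt] using h2 q

theorem pow_M (T : Matrix κ κ ℕ) (Z : Matrix κ β ℕ) (W : Matrix β β ℕ) (n : ℕ) :
    ∃ Y : Matrix κ β ℕ, (M T Z W) ^ n = fromBlocks (T ^ n) Y 0 (W ^ n) ∧
      ∀ p q, Y p q ≠ 0 → ∃ i j, i + j + 1 = n ∧ (T ^ i * Z * W ^ j) p q ≠ 0 := by
  induction n with
  | zero => exact ⟨0, by simp, by simp⟩
  | succ n ih =>
    obtain ⟨Y, h1, h2⟩ := ih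
    refine ⟨T * Y + Z * W ^ n, ?_, ?_⟩
    · rw [pow_succ', h1]
      simp only [fromBlocks_multiply, Matrix.mul_zero, Matrix.zero_mul, add_zero, zero_add,
        pow_succ']
    · intro p q hp
      by_cases hz : (T * Y) p q = 0
      · refine ⟨0, n, by omega, ?_⟩
        rw [pow_zero, Matrix.one_mul]
        intro h0
        apply hp
        simp [Matrix.add_apply, h0, hz]
      · obtain ⟨p1, h3, h4⟩ := ne_mul hz
        obtain ⟨i, j, h5, h6⟩ := h2 p1 q h4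
        refine ⟨i + 1, j, by omega, ?_⟩
        rw [pow_succ', Matrix.mul_assoc, Matrix.mul_assoc]
        rw [Matrix.mul_assoc] at h6
        exact mul_ne h3 h6

/-- the core lemma -/
theorem core {π : Equiv.Perm κ} {h : κ → ℕ} (hπ : ∀ p, h (π p) = h p) {T : Matrix κ κ ℕ}
    (hT : CT π h T) (hT0 : ∀ p, T p (π p) ≠ 0) {ρ : Equiv.Perm β} {w : β → ℕ} (hw : ∀ q, w q ≠ 0)
    (hρ : ∀ q q', ∃ k : ℕ, (ρ ^ k) q = q') {Z0 Z0' σ : Matrix κ β ℕ} {a b n : ℕ}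
    (Q' : Matrix (κ ⊕ β) (κ ⊕ β) ℕ)
    (hQ : M T Z0 (Wt ρ w) * fromBlocks (T ^ a) σ 0 ((Wt ρ w) ^ b) =
      fromBlocks (T ^ a) σ 0 ((Wt ρ w) ^ b) * M T Z0' (Wt ρ w))
    (h1 : fromBlocks (T ^ a) σ 0 ((Wt ρ w) ^ b) * Q' = (M T Z0 (Wt ρ w)) ^ n)
    (h2 : Q' * fromBlocks (T ^ a) σ 0 ((Wt ρ w) ^ b) = (M T Z0' (Wt ρ w)) ^ n) :
    Real (M T Z0 (Wt ρ w)) (M T Z0' (Wt ρ w)) (fromBlocks (T ^ a) σ 0 ((Wt ρ w) ^ b)) := by
  set W := Wt ρ w with hW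
  obtain ⟨Y1, hY1, hY1'⟩ := pow_M T Z0 W n
  obtain ⟨Y2, hY2, hY2'⟩ := pow_M T Z0' W n
  rw [hY1] at h1
  rw [hY2] at h2
  obtain ⟨X, τ, η, Q4, rfl⟩ : ∃ X τ η Q4, Q' = fromBlocks X τ η Q4 :=
    ⟨Q'.toBlocks₁₁, Q'.toBlocks₁₂, Q'.toBlocks₂₁, Q'.toBlocks₂₂, by rw [fromBlocks_toBlocks]⟩
  simp only [fromBlocks_multiply, Matrix.mul_zero, Matrix.zero_mul, add_zero, zero_add,
    fromBlocks_inj] at h1 h2 hQ
  obtain ⟨h11, h12, h13, h14⟩ := h1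
  obtain ⟨h21, h22, -, h24⟩ := h2
  obtain ⟨-, hQ2, -, -⟩ := hQ
  have hη : η = 0 := by
    ext q p
    have e1 : (W ^ b) ((ρ ^ b).symm q) q ≠ 0 := by
      have := Wt_pow_apply' (ρ := ρ) hw b ((ρ ^ b).symm q)
      rwa [Equiv.apply_symm_apply] at this
    have e2 := congrFun (congrFun h13 ((ρ ^ b).symm q)) p
    by_contra hc
    exact mul_ne e1 hc (by simpa using e2)
  subst hη
  have h11' : T ^ a * X = T ^ n := by simpa using h11
  have h24' : Q4 * W ^ b = W ^ n := by simpa using h24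
  set N := orderOf π * orderOf ρ with hN
  have hN0 : 0 < N := Nat.mul_pos (orderOf_pos π) (orderOf_pos ρ)
  have hπN : π ^ N = 1 := by rw [hN, pow_mul, pow_orderOf_eq_one, one_pow]
  have hρN : ρ ^ N = 1 := by rw [hN, Nat.mul_comm, pow_mul, pow_orderOf_eq_one, one_pow]
  -- supports
  have hs1 : ∀ p q, σ p q ≠ 0 → Cn T ρ (Z0 * W ^ b) p q := by
    intro p q hp
    have e1 : (σ * W ^ n) p ((ρ ^ n) q) ≠ 0 := mul_ne hp (Wt_pow_apply' hw n q)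
    rw [← h24', ← Matrix.mul_assoc] at e1
    obtain ⟨q2, e2, e3⟩ := ne_mul e1
    have e4 : Y1 p q2 ≠ 0 := by
      rw [← h12, Matrix.add_apply]
      omega
    obtain ⟨i, j, hij, e5⟩ := hY1' p q2 e4
    have e6 : (T ^ i * (Z0 * W ^ b) * W ^ j) p ((ρ ^ n) q) ≠ 0 := by
      have := mul_ne e5 e3
      rwa [Matrix.mul_assoc, Matrix.mul_assoc, ← pow_add, Nat.add_comm, pow_add,
        ← Matrix.mul_assoc Z0, ← Matrix.mul_assoc] at this
    obtain ⟨q3, e7, e8⟩ := ne_mul e6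
    obtain ⟨p', e9, e10⟩ := ne_mul e7
    have e11 := Wt_pow_apply hw e8
    refine ⟨i, p', e9, ?_⟩
    have e12 : (ρ ^ n) q = (ρ ^ j) (ρ ((ρ ^ i) q)) := by
      rw [← hij, ← Equiv.Perm.mul_apply, ← Equiv.Perm.mul_apply, mul_assoc, ← pow_succ', ← pow_add]
      congr 2
      omega
    have e13 : q3 = ρ ((ρ ^ i) q) := (ρ ^ j).injective (by rw [← e11, e12])
    rwa [← e13]
  have hs2 : ∀ p q, σ p q ≠ 0 → Cn T ρ (T ^ a * Z0') p q := by
    intro p q hp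
    set m := n * (N - 1) with hm
    have hmn : m + n = n * N := by
      obtain ⟨N', hN'⟩ : ∃ N', N = N' + 1 := ⟨N - 1, by omega⟩
      rw [hm, hN', Nat.add_sub_cancel, Nat.mul_succ]
    have f1 : (T ^ n) ((π ^ m) p) p ≠ 0 := by
      have := pow_ne hT0 n ((π ^ m) p)
      rwa [← Equiv.Perm.mul_apply, ← pow_add, Nat.add_comm, hmn, pow_one_of hπN,
        Equiv.Perm.one_apply] at this
    have f2 := mul_ne f1 hp
    rw [← h11', Matrix.mul_assoc] at f2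
    obtain ⟨p3, f3, f4⟩ := ne_mul f2
    have f5 : Y2 p3 q ≠ 0 := by
      rw [← h22, Matrix.add_apply]
      omega
    obtain ⟨i, j, hij, f6⟩ := hY2' p3 q f5
    have f7 : (T ^ i * (T ^ a * Z0') * W ^ j) ((π ^ m) p) q ≠ 0 := by
      have := mul_ne f3 f6
      rwa [Matrix.mul_assoc (T ^ i), ← Matrix.mul_assoc (T ^ a), ← pow_add, Nat.add_comm a,
        pow_add, Matrix.mul_assoc (T ^ i), ← Matrix.mul_assoc (T ^ a), ← Matrix.mul_assoc] at this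
    obtain ⟨q3, f8, f9⟩ := ne_mul f7
    obtain ⟨p', f10, f11⟩ := ne_mul f8
    have f12 := Wt_pow_apply hw f9
    refine ⟨m + i, p', ?_, ?_⟩
    · rw [pow_add]
      exact mul_ne (pow_ne hT0 m p) f10
    · have f13 : (ρ ^ j) (ρ ((ρ ^ (m + i)) q)) = q := by
        rw [← Equiv.Perm.mul_apply, ← Equiv.Perm.mul_apply, mul_assoc, ← pow_succ', ← pow_add]
        have : j + (m + i + 1) = n * N := by omega
        rw [this, pow_one_of hρN, Equiv.Perm.one_apply]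
      have f14 : q3 = ρ ((ρ ^ (m + i)) q) := (ρ ^ j).injective (by rw [f13, ← f12])
      rwa [← f14]
  have he : Z0 * W ^ b + T * σ = T ^ a * Z0' + σ * W := by
    rw [add_comm, hQ2]
  have hpath := path hπ hT hT0 hw hρ he (fun p q hpq => ⟨hs1 p q hpq, hs2 p q hpq⟩)
  obtain ⟨S1, c1⟩ := wshift T Z0 W b
  obtain ⟨S3, c3⟩ := tshift T Z0' W a
  have e1 : fromBlocks (T ^ a) σ 0 (W ^ b) =
      fromBlocks (1 : Matrix κ κ ℕ) 0 0 (W ^ b) *
        (fromBlocks 1 σ 0 1 * fromBlocks (T ^ a) 0 0 1) := by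
    simp only [fromBlocks_multiply, Matrix.mul_one,
      Matrix.one_mul, Matrix.mul_zero, Matrix.zero_mul, add_zero, zero_add]
  rw [e1]
  have hc1 : M T (Z0 * W ^ b) W * fromBlocks 1 σ 0 1 =
      fromBlocks 1 σ 0 1 * M T (T ^ a * Z0') W := by
    simp only [fromBlocks_multiply, Matrix.mul_one,
      Matrix.one_mul, Matrix.mul_zero, Matrix.zero_mul, add_zero, zero_add]
    rw [add_comm (T * σ), he]
  have hc3 := c3.props.2.2.1
  refine c1.real.trans (hpath.trans c3.real hc3) ?_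
  rw [← Matrix.mul_assoc, hc1, Matrix.mul_assoc, hc3, Matrix.mul_assoc]

end Pool.Agent.H32.SSC
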