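import Pool.Agent.H32.SSC.Main

open Matrix

namespace Pool.Agent.H32.SSC

open Pool.Agent.H32.SSE

theorem main_cyc (n : ℕ) : ∀ (α : Type) [Fintype α] [DecidableEq α], Fintype.card α = n →
    ∀ (π : Equiv.Perm α) (h : α → ℕ) (A B R S : Matrix α α ℕ) (ℓ : ℕ), (∀ i, h (π i) = h i) →
      CT π h A → CT π h B → Tri h R → Tri h S →
      (∀ i, A i (π i) ≠ 0) → (∀ i, B i (π i) ≠ 0) → (∀ i, R i i ≠ 0) → (∀ i, S i i ≠ 0) →
      A * R = R * B → S * A = B * S → R * S = A ^ ℓ → S * R = B ^ ℓ → Real A B R := by
  classical
  induction n using Nat.strong_induction_on with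
  | _ n ih =>
    intro α _ _ hcard π h A B R S ℓ hπ tA tB tR tS dA dB dR dS e1 e2 e3 e4
    by_cases hne : Nonempty α
    swap
    · haveI : IsEmpty α := not_nonempty_iff.1 hne
      have h1 : A = B := Subsingleton.elim _ _
      subst h1
      have h2 : R = 1 := Subsingleton.elim _ _
      rw [h2]
      exact (Ch.refl A).real
    obtain ⟨x, hx⟩ := Finite.exists_max h
    let P : α → Prop := fun i => π.SameCycle x i
    have hP : ∀ i, P (π i) ↔ P i := fun i => Equiv.Perm.sameCycle_apply_right
    have hPn : ∀ i, ¬ P (π i) ↔ ¬ P i := fun i => not_congr (hP i)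
    have hhP : ∀ i, P i → h i = h x := by
      intro i hi
      obtain ⟨k, -, hk⟩ := Equiv.Perm.SameCycle.exists_pow_eq' hi
      rw [← hk]
      clear hk
      induction k with
      | zero => rfl
      | succ k ihk => rw [pow_succ', Equiv.Perm.mul_apply, hπ, ihk]
    let κ := {i // ¬ P i}
    let β := {i // P i}
    let πκ : Equiv.Perm κ := π.subtypePerm hPn
    let ρ : Equiv.Perm β := π.subtypePerm hP
    let e : κ ⊕ β ≃ α := (Equiv.sumComm κ β).trans (Equiv.sumCompl P)
    have el : ∀ i : κ, e (Sum.inl i) = i.1 := fun i => rfl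
    have er : ∀ i : β, e (Sum.inr i) = i.1 := fun i => rfl
    have hρk : ∀ (k : ℕ) (q : β), ((ρ ^ k) q).1 = (π ^ k) q.1 := by
      intro k q
      induction k with
      | zero => rfl
      | succ k ihk =>
        rw [pow_succ', pow_succ', Equiv.Perm.mul_apply, Equiv.Perm.mul_apply, ← ihk]
        rfl
    have hρ : ∀ q q' : β, ∃ k : ℕ, (ρ ^ k) q = q' := by
      intro q q'
      have hqq : π.SameCycle q.1 q'.1 := q.2.symm.trans q'.2
      obtain ⟨k, -, hk⟩ := Equiv.Perm.SameCycle.exists_pow_eq' hqq
      exact ⟨k, Subtype.ext (by rw [hρk, hk])⟩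
    -- block forms
    have pC : ∀ {C : Matrix α α ℕ}, CT π h C → C.submatrix e e =
        M (C.submatrix (fun i : κ => i.1) (fun i : κ => i.1)) (fun p q => C p.1 q.1)
          (Wt ρ (fun q => C q.1 (π q.1))) := by
      intro C hC
      ext i j
      rcases i with i | i <;> rcases j with j | j
      · rfl
      · rfl
      · simp only [submatrix_apply, el, er, fromBlocks_apply₂₁, Matrix.zero_apply]
        by_contra hc
        rcases hC _ _ hc with h1 | h1
        · exact j.2 (by rw [h1]; exact (hP _).2 i.2)
        · rw [hhP _ i.2] at h1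
          exact absurd (hx j.1) (by omega)
      · simp only [submatrix_apply, er, fromBlocks_apply₂₂, Wt]
        by_cases hj : j = ρ i
        · subst hj
          rw [if_pos rfl]
          rfl
        · rw [if_neg hj]
          by_contra hc
          rcases hC _ _ hc with h1 | h1
          · exact hj (Subtype.ext h1)
          · rw [hhP _ i.2, hhP _ j.2] at h1
            exact lt_irrefl _ h1
    have pD : ∀ {C : Matrix α α ℕ}, Tri h C → C.submatrix e e =
        M (C.submatrix (fun i : κ => i.1) (fun i : κ => i.1)) (fun p q => C p.1 q.1)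
          (diagonal (fun q : β => C q.1 q.1)) := by
      intro C hC
      ext i j
      rcases i with i | i <;> rcases j with j | j
      · rfl
      · rfl
      · simp only [submatrix_apply, el, er, fromBlocks_apply₂₁, Matrix.zero_apply]
        by_contra hc
        rcases hC _ _ hc with h1 | h1
        · exact j.2 (by rw [← h1]; exact i.2)
        · rw [hhP _ i.2] at h1
          exact absurd (hx j.1) (by omega)
      · simp only [submatrix_apply, er, fromBlocks_apply₂₂]
        by_cases hj : i = j
        · subst hj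
          rw [Matrix.diagonal_apply_eq]
        · rw [Matrix.diagonal_apply_ne _ hj]
          by_contra hc
          rcases hC _ _ hc with h1 | h1
          · exact hj (Subtype.ext h1)
          · rw [hhP _ i.2, hhP _ j.2] at h1
            exact lt_irrefl _ h1
    have pA := pC tA
    have pB := pC tB
    have pR := pD tR
    have pS := pD tS
    set T := A.submatrix (fun i : κ => i.1) (fun i : κ => i.1) with hT
    set T' := B.submatrix (fun i : κ => i.1) (fun i : κ => i.1) with hT'
    set RT := R.submatrix (fun i : κ => i.1) (fun i : κ => i.1) with hRT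
    set ST := S.submatrix (fun i : κ => i.1) (fun i : κ => i.1) with hST
    have E1 : A.submatrix e e * R.submatrix e e = R.submatrix e e * B.submatrix e e := by
      rw [submatrix_mul_equiv, submatrix_mul_equiv, e1]
    have E2 : S.submatrix e e * A.submatrix e e = B.submatrix e e * S.submatrix e e := by
      rw [submatrix_mul_equiv, submatrix_mul_equiv, e2]
    have E3 : R.submatrix e e * S.submatrix e e = (A.submatrix e e) ^ ℓ := by
      rw [submatrix_mul_equiv, e3, submatrix_pow]
    have E4 : S.submatrix e e * R.submatrix e e = (B.submatrix e e) ^ ℓ := by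
      rw [submatrix_mul_equiv, e4, submatrix_pow]
    rw [pA, pB, pR] at E1
    rw [pA, pB, pS] at E2
    rw [pA, pR, pS] at E3
    rw [pB, pR, pS] at E4
    have hcκ : Fintype.card κ < n := by
      rw [← hcard]
      exact Fintype.card_subtype_lt (x := x) (fun hc => hc (Equiv.Perm.SameCycle.refl π x))
    have subC : ∀ {C : Matrix α α ℕ}, CT π h C →
        CT πκ (fun i : κ => h i.1) (C.submatrix (fun i : κ => i.1) (fun i : κ => i.1)) := by
      intro C hC i j hij
      rcases hC i.1 j.1 hij with h1 | h1
      · exact Or.inl (Subtype.ext h1)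
      · exact Or.inr h1
    have subT : ∀ {C : Matrix α α ℕ}, Tri h C →
        Tri (fun i : κ => h i.1) (C.submatrix (fun i : κ => i.1) (fun i : κ => i.1)) := by
      intro C hC i j hij
      rcases hC i.1 j.1 hij with h1 | h1
      · exact Or.inl (Subtype.ext h1)
      · exact Or.inr h1
    have hmain : Real (A.submatrix e e) (B.submatrix e e) (R.submatrix e e) := by
      rw [pA, pB, pR]
      have key : T * RT = RT * T' → ST * T = T' * ST → RT * ST = T ^ ℓ → ST * RT = T' ^ ℓ →
          Real T T' RT := fun f1 f2 f3 f4 =>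
        ih (Fintype.card κ) hcκ κ rfl πκ (fun i => h i.1) T T' RT ST ℓ (fun p => hπ p.1)
          (subC tA) (subC tB) (subT tR) (subT tS) (fun i => dA i.1) (fun i => dB i.1)
          (fun i => dR i.1) (fun i => dS i.1) f1 f2 f3 f4
      have hπκ : ∀ p : κ, h (πκ p).1 = h p.1 := fun p => hπ p.1
      have hdT' : ∀ p, T' p (πκ p) ≠ 0 := fun p => dB p.1
      have g1 : ∀ q : β, (fun q : β => A q.1 (π q.1)) q ≠ 0 := fun q => dA q.1
      have g2 : ∀ q : β, (fun q : β => B q.1 (π q.1)) q ≠ 0 := fun q => dB q.1
      have g3 : ∀ q : β, (fun q : β => R q.1 q.1) q ≠ 0 := fun q => dR q.1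
      have g4 : ∀ q : β, (fun q : β => S q.1 q.1) q ≠ 0 := fun q => dS q.1
      have hsB : CT πκ (fun i : κ => h i.1) T' := subC tB
      clear_value T T' RT ST
      clear ih subC subT pC pD
      exact main_block (κ := κ) (β := β) (π := πκ) (h := fun i => h i.1) hπκ (T := T) (T' := T')
        hsB hdT' (ρ := ρ) (w := fun q : β => A q.1 (π q.1)) (w' := fun q : β => B q.1 (π q.1))
        (r := fun q : β => R q.1 q.1) (sv := fun q : β => S q.1 q.1) g1 g2 g3 g4 hρ
        (Y := fun p q => A p.1 q.1) (Y' := fun p q => B p.1 q.1) (ρ0 := fun p q => R p.1 q.1)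
        (s0 := fun p q => S p.1 q.1) (RT := RT) (ST := ST) (ℓ := ℓ) E1 E2 E3 E4 key
    have := hmain.reindex e.symm
    simpa [Matrix.submatrix_submatrix] using this

end Pool.Agent.H32.SSC
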