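import Pool.Agent.H32.SSE.Final
import Pool.Agent.H32.SSC.Peel

open Matrix

namespace Pool.Agent.H32.SSC

open Pool.Agent.H32.SSE hiding Tri

section Remove

variable {α : Type} [Fintype α] [DecidableEq α]

theorem remove_one {π : Equiv.Perm α} {h : α → ℕ} (hπ : ∀ i, h (π i) = h i) {A : Matrix α α ℕ}
    (hA : CT π h A) {y x : α} (hxy : x = π y) (hy : A y x = 0) :
    ∃ (π' : Equiv.Perm {i // i ≠ x}) (C : Matrix {i // i ≠ x} {i // i ≠ x} ℕ),
      (∀ i, h (π' i).1 = h i.1) ∧ CT π' (fun i => h i.1) C ∧ ES A C := by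
  classical
  set R : Matrix α {i // i ≠ x} ℕ := fun k j =>
    if h k < h x then (if k = j.1 then 1 else 0) else A k j.1 with hR
  set S : Matrix {i // i ≠ x} α ℕ := fun k j =>
    if h k.1 < h x then A k.1 j else (if k.1 = j then 1 else 0) with hS
  set π2 : Equiv.Perm α := Equiv.swap x (π x) * π with hπ2
  have hfix : π2 x = x := by
    rw [hπ2, Equiv.Perm.mul_apply, Equiv.swap_apply_right]
  have hne : ∀ i, π2 i ≠ x ↔ i ≠ x := by
    intro i
    constructor
    · rintro h1 rfl
      exact h1 hfix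
    · intro h1 h2
      exact h1 (π2.injective (h2.trans hfix.symm))
  have hπ2h : ∀ i, h (π2 i) = h i := by
    intro i
    rw [hπ2, Equiv.Perm.mul_apply]
    by_cases c1 : π i = x
    · rw [c1, Equiv.swap_apply_left, hπ, ← hπ i, c1]
    · by_cases c2 : π i = π x
      · rw [c2, Equiv.swap_apply_right, π.injective c2]
      · rw [Equiv.swap_apply_of_ne_of_ne c1 c2, hπ]
  refine ⟨π2.subtypePerm hne, S * R, fun i => hπ2h i.1, ?_, R, S, ?_, rfl⟩
  · intro k l hkl
    have key : l.1 = π k.1 ∨ h k.1 < h l.1 := by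
      obtain ⟨j, h1, h2⟩ := ne_mul hkl
      simp only [hS] at h1
      simp only [hR] at h2
      split_ifs at h1 with c1 c2
      · split_ifs at h2 with d1 d2
        · rw [← d2]
          exact hA _ _ h1
        · exact absurd rfl h2
        · right
          rcases hA _ _ h2 with g | g
          · rw [g, hπ]; omega
          · omega
      · rw [← c2] at h2
        rw [if_neg c1] at h2
        exact hA _ _ h2
      · exact absurd rfl h1
    rcases key with g | g
    · left
      apply Subtype.ext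
      show l.1 = π2 k.1
      rw [hπ2, Equiv.Perm.mul_apply, ← g, Equiv.swap_apply_of_ne_of_ne l.2]
      intro h3
      rw [g] at h3
      exact k.2 (π.injective h3)
    · exact Or.inr g
  · ext i j
    rw [Matrix.mul_apply]
    by_cases hi : h i < h x
    · have hix : i ≠ x := by
        rintro rfl
        exact lt_irrefl _ hi
      rw [Finset.sum_eq_single (⟨i, hix⟩ : {i // i ≠ x})]
      · simp [hR, hS, hi]
      · intro b _ hb
        have : i ≠ b.1 := fun hib => hb (Subtype.ext hib.symm)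
        simp [hR, hi, this]
      · intro hb
        exact absurd (Finset.mem_univ _) hb
    · have e1 : ∀ k : {i // i ≠ x}, R i k * S k j = A i k.1 * (if k.1 = j then 1 else 0) := by
        intro k
        simp only [hR, hS, hi, if_false]
        by_cases hk : A i k.1 = 0
        · simp [hk]
        · have : ¬ h k.1 < h x := by
            rcases hA _ _ hk with g | g
            · rw [g, hπ]; exact hi
            · omega
          simp [this]
      simp only [e1]
      by_cases hj : j = x
      · subst hj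
        have e2 : A i j = 0 := by
          by_contra hc
          rcases hA _ _ hc with g | g
          · have : i = y := π.injective (by rw [← g, hxy])
            subst this
            exact hc hy
          · exact hi g
        rw [e2]
        symm
        apply Finset.sum_eq_zero
        intro k _
        rw [if_neg k.2, mul_zero]
      · rw [Finset.sum_eq_single (⟨j, hj⟩ : {i // i ≠ x})]
        · simp
        · intro b _ hb
          have : b.1 ≠ j := fun hbj => hb (Subtype.ext hbj)
          simp [this]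
        · intro hb
          exact absurd (Finset.mem_univ _) hb

theorem remove_all (n : ℕ) : ∀ (α : Type) [Fintype α] [DecidableEq α], Fintype.card α = n →
    ∀ (π : Equiv.Perm α) (h : α → ℕ) (A : Matrix α α ℕ), (∀ i, h (π i) = h i) → CT π h A →
      ∃ (β : Type) (_ : Fintype β) (_ : DecidableEq β) (π' : Equiv.Perm β) (h' : β → ℕ)
        (C : Matrix β β ℕ), (∀ i, h' (π' i) = h' i) ∧
        CT π' h' C ∧ (∀ i, C i (π' i) ≠ 0) ∧ Conn A C ∧ SEq A C := by
  induction n using Nat.strong_induction_on with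
  | _ n ih =>
    intro α _ _ hcard π h A hπ hA
    by_cases hd : ∀ i, A i (π i) ≠ 0
    · exact ⟨α, inferInstance, inferInstance, π, h, A, hπ, hA, hd,
        Relation.ReflTransGen.refl, ES.seq ⟨A, 1, by simp, by simp⟩⟩
    · push Not at hd
      obtain ⟨y, hy⟩ := hd
      obtain ⟨π', C, hπ', hC, hAC⟩ := remove_one hπ hA rfl hy
      have hcκ : Fintype.card {i // i ≠ π y} < n := by
        rw [← hcard]
        exact Fintype.card_subtype_lt (x := π y) (fun hc => hc rfl)
      obtain ⟨β, i1, i2, π2, h2, D, t0, t, d, c, s⟩ := ih _ hcκ {i // i ≠ π y} rfl _ _ C hπ' hC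
      exact ⟨β, i1, i2, π2, h2, D, t0, t, d, hAC.conn.trans c, hAC.seq.trans s⟩

end Remove

theorem CT.pow {α : Type} [Fintype α] [DecidableEq α] {π : Equiv.Perm α} {h : α → ℕ}
    (hπ : ∀ i, h (π i) = h i) {A : Matrix α α ℕ} (hA : CT π h A) (k : ℕ) (i j : α)
    (hij : (A ^ k) i j ≠ 0) : j = (π ^ k) i ∨ h i < h j := by
  induction k generalizing j with
  | zero =>
    left
    by_contra hc
    exact hij (by rw [pow_zero, Matrix.one_apply_ne (fun e => hc (by simp [e]))])
  | succ k ih =>
    rw [pow_succ] at hij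
    obtain ⟨l, h1, h2⟩ := ne_mul hij
    have hpk : ∀ k : ℕ, h ((π ^ k) i) = h i := by
      intro k
      induction k with
      | zero => rfl
      | succ k ihk => rw [pow_succ', Equiv.Perm.mul_apply, hπ, ihk]
    rcases ih l h1 with g1 | g1 <;> rcases hA l j h2 with g2 | g2
    · left; rw [pow_succ', Equiv.Perm.mul_apply, ← g1, g2]
    · right; rw [g1, hpk] at g2; exact g2
    · right; rw [g2, hπ]; exact g1
    · right; exact g1.trans g2

theorem matching {α β : Type} [Fintype α] [DecidableEq α] [Fintype β] [DecidableEq β]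
    {h : α → ℕ} {A : Matrix α α ℕ} (hA : Tri h A) (dA : ∀ i, A i i ≠ 0)
    {R : Matrix α β ℕ} {S : Matrix β α ℕ} (e1 : A = R * S) :
    ∃ f : α → β, Function.Injective f ∧ ∀ i, R i (f i) ≠ 0 ∧ S (f i) i ≠ 0 := by
  have : ∀ i, ∃ k, R i k ≠ 0 ∧ S k i ≠ 0 := by
    intro i
    have h1 := dA i
    rw [e1] at h1
    exact ne_mul h1
  choose f hf using this
  refine ⟨f, fun i j hij => ?_, hf⟩
  have h1 : A i j ≠ 0 := by
    rw [e1]
    exact mul_ne (hf i).1 (by rw [hij]; exact (hf j).2)
  have h2 : A j i ≠ 0 := by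
    rw [e1]
    exact mul_ne (hf j).1 (by rw [← hij]; exact (hf i).2)
  rcases hA _ _ h1 with g | g
  · exact g
  · rcases hA _ _ h2 with g' | g'
    · exact g'.symm
    · omega

theorem main_pos {α β : Type} [Fintype α] [DecidableEq α] [Fintype β] [DecidableEq β]
    {π : Equiv.Perm α} {π' : Equiv.Perm β} {h : α → ℕ} {h' : β → ℕ}
    (hπ : ∀ i, h (π i) = h i) (hπ' : ∀ i, h' (π' i) = h' i)
    {A : Matrix α α ℕ} {B : Matrix β β ℕ} (hA : CT π h A) (hB : CT π' h' B)
    (dA : ∀ i, A i (π i) ≠ 0) (dB : ∀ i, B i (π' i) ≠ 0) (hAB : SEq A B) : Conn A B := by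
  obtain ⟨ℓ, hl, R, S0, e1', e2', e3, e4'⟩ := hAB
  set N := orderOf π * orderOf π' with hN
  have hN0 : 0 < N := Nat.mul_pos (orderOf_pos π) (orderOf_pos π')
  have hπN : π ^ N = 1 := by rw [hN, pow_mul, pow_orderOf_eq_one, one_pow]
  have hπN' : π' ^ N = 1 := by rw [hN, Nat.mul_comm, pow_mul, pow_orderOf_eq_one, one_pow]
  obtain ⟨j, hj⟩ : ∃ j, ℓ * N = ℓ + j :=
    Nat.exists_eq_add_of_le (Nat.le_mul_of_pos_right _ hN0)
  set S := S0 * A ^ j with hS
  have e1 : A ^ (ℓ * N) = R * S := by
    rw [hS, ← Matrix.mul_assoc, ← e1', hj, pow_add]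
  have e4 : S * A = B * S := by
    rw [hS, Matrix.mul_assoc, ← pow_succ, pow_succ', ← Matrix.mul_assoc, e4', Matrix.mul_assoc]
  have e2 : B ^ (ℓ * N) = S * R := by
    rw [hS, Matrix.mul_assoc, comm_pow' e3, ← Matrix.mul_assoc, ← e2', hj, pow_add]
  have dpow : ∀ {γ : Type} [Fintype γ] [DecidableEq γ] {τ : Equiv.Perm γ} {C : Matrix γ γ ℕ},
      τ ^ N = 1 → (∀ i, C i (τ i) ≠ 0) → ∀ i, (C ^ (ℓ * N)) i i ≠ 0 := by
    intro γ _ _ τ C hτ hC i
    have := pow_ne hC (ℓ * N) i
    rwa [pow_one_of hτ, Equiv.Perm.one_apply] at this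
  have tpow : ∀ {γ : Type} [Fintype γ] [DecidableEq γ] {τ : Equiv.Perm γ} {C : Matrix γ γ ℕ}
      {g : γ → ℕ}, τ ^ N = 1 → (∀ i, g (τ i) = g i) → CT τ g C → Tri g (C ^ (ℓ * N)) := by
    intro γ _ _ τ C g hτ hg hC i j hij
    rcases hC.pow hg _ i j hij with h1 | h1
    · left
      rw [h1, pow_one_of hτ, Equiv.Perm.one_apply]
    · exact Or.inr h1
  have tA := tpow hπN hπ hA
  obtain ⟨f, hf, hfR⟩ := matching tA (dpow hπN dA) e1
  obtain ⟨g, hg, -⟩ := matching (tpow hπN' hπ' hB) (dpow hπN' dB) e2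
  have hcard : Fintype.card α = Fintype.card β :=
    le_antisymm (Fintype.card_le_of_injective f hf) (Fintype.card_le_of_injective g hg)
  have hbij : Function.Bijective f :=
    (Fintype.bijective_iff_injective_and_card f).2 ⟨hf, hcard⟩
  set e : α ≃ β := Equiv.ofBijective f hbij with he
  have hef : ∀ i, e i = f i := fun i => rfl
  set B' := B.submatrix e e with hB'
  set R' := R.submatrix id e with hR'
  set S' := S.submatrix e id with hS'
  have E1 : A * R' = R' * B' := by
    have h1 := submatrix_mul_equiv A R id (Equiv.refl α) e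
    simp only [Equiv.coe_refl, submatrix_id_id] at h1
    rw [hR', hB', submatrix_mul_equiv, h1, e3]
  have E2 : S' * A = B' * S' := by
    have h1 := submatrix_mul_equiv S A e (Equiv.refl α) id
    simp only [Equiv.coe_refl, submatrix_id_id] at h1
    rw [hS', hB', submatrix_mul_equiv, h1, e4]
  have E3 : R' * S' = A ^ (ℓ * N) := by
    rw [hR', hS', submatrix_mul_equiv, e1, submatrix_id_id]
  have E4 : S' * R' = B' ^ (ℓ * N) := by
    have h1 := submatrix_mul_equiv S R e (Equiv.refl α) e
    simp only [Equiv.coe_refl] at h1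
    rw [hS', hR', h1, hB', ← submatrix_pow, e2]
  have dR : ∀ i, R' i i ≠ 0 := fun i => (hfR i).1
  have dS : ∀ i, S' i i ≠ 0 := fun i => (hfR i).2
  have tR : Tri h R' := by
    intro i j hij
    apply tA
    rw [← E3]
    exact mul_ne hij (dS j)
  have tS : Tri h S' := by
    intro i j hij
    apply tA
    rw [← E3]
    exact mul_ne (dR i) hij
  have tB : CT π h B' := by
    intro i j hij
    have h1 : A ^ (ℓ * N + 1) = R' * B' * S' := by
      rw [← E1, Matrix.mul_assoc, E3, ← pow_succ']
    have h2 : (A ^ (ℓ * N + 1)) i j ≠ 0 := by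
      rw [h1]
      exact mul_ne (mul_ne (dR i) hij) (dS j)
    rcases hA.pow hπ _ i j h2 with h3 | h3
    · left
      rw [h3, pow_succ', pow_one_of hπN, mul_one]
    · exact Or.inr h3
  set ρ : Equiv.Perm α := (e.trans π').trans e.symm with hρ
  have hBρ : ∀ i, B' i (ρ i) ≠ 0 := by
    intro i
    have : B' i (ρ i) = B (e i) (π' (e i)) := by
      simp [hB', hρ]
    rw [this]
    exact dB _
  have hle : ∀ i ∈ (Finset.univ : Finset α), h i ≤ h (ρ i) := by
    intro i _
    rcases tB _ _ (hBρ i) with h1 | h1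
    · rw [h1, hπ]
    · exact h1.le
  have hsum : ∑ i, h i = ∑ i, h (ρ i) := (Equiv.sum_comp ρ h).symm
  have heq := (Finset.sum_eq_sum_iff_of_le hle).1 hsum
  have dB' : ∀ i, B' i (π i) ≠ 0 := by
    intro i
    rcases tB _ _ (hBρ i) with h1 | h1
    · rw [← h1]; exact hBρ i
    · exact absurd (heq i (Finset.mem_univ _)) h1.ne
  obtain ⟨R0, S0, k, i, j, hc, -⟩ := main_cyc _ α rfl π h A B' R' S' (ℓ * N) hπ hA tB tR tS dA dB'
    dR dS E1 E2 E3 E4
  exact hc.conn.trans (ES.reindex B e).conn.symm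

theorem main_ct {α β : Type} [Fintype α] [DecidableEq α] [Fintype β] [DecidableEq β]
    {π : Equiv.Perm α} {π' : Equiv.Perm β} {h : α → ℕ} {h' : β → ℕ}
    (hπ : ∀ i, h (π i) = h i) (hπ' : ∀ i, h' (π' i) = h' i)
    {A : Matrix α α ℕ} {B : Matrix β β ℕ} (hA : CT π h A) (hB : CT π' h' B)
    (hAB : SEq A B) : Conn A B := by
  obtain ⟨α', _, _, p, g, A', t0, t1, d1, c1, s1⟩ := remove_all _ α rfl π h A hπ hA
  obtain ⟨β', _, _, p', g', B', t0', t2, d2, c2, s2⟩ := remove_all _ β rfl π' h' B hπ' hB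
  exact (c1.trans (main_pos t0 t0' t1 t2 d1 d2 ((s1.symm.trans hAB).trans s2))).trans c2.symm

end Pool.Agent.H32.SSC
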