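import Pool.Agent.H32.SSC.Block

open Matrix

namespace Pool.Agent.H32.SSC

open Pool.Agent.H32.SSE

variable {κ β : Type} [Fintype κ] [DecidableEq κ] [Fintype β] [DecidableEq β]

/-- nonzero entries of `A` either follow the permutation `π` or increase the height `h` -/
def CT {α : Type} (π : Equiv.Perm α) (h : α → ℕ) (A : Matrix α α ℕ) : Prop :=
  ∀ i j, A i j ≠ 0 → j = π i ∨ h i < h j

/-- weighted permutation matrix -/
def Wt (ρ : Equiv.Perm β) (w : β → ℕ) : Matrix β β ℕ := fun q q' => if q' = ρ q then w q else 0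

theorem mul_Wt (σ : Matrix κ β ℕ) (ρ : Equiv.Perm β) (w : β → ℕ) (p : κ) (q : β) :
    (σ * Wt ρ w) p (ρ q) = σ p q * w q := by
  rw [Matrix.mul_apply, Finset.sum_eq_single q]
  · simp [Wt]
  · intro b _ hb
    have : ρ q ≠ ρ b := fun h => hb (ρ.injective h).symm
    simp [Wt, this]
  · intro hq
    exact absurd (Finset.mem_univ _) hq

/-- one firing -/
def ee (p : κ) (q : β) : Matrix κ β ℕ := fun p' q' => if p' = p ∧ q' = q then 1 else 0

theorem ee_mul (p : κ) (q : β) (ρ : Equiv.Perm β) (w : β → ℕ) (p' : κ) (q' : β) :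
    (ee p q * Wt ρ w) p' q' = if p' = p ∧ q' = ρ q then w q else 0 := by
  rw [Matrix.mul_apply, Finset.sum_eq_single q]
  · by_cases h1 : p' = p <;> by_cases h2 : q' = ρ q <;> simp [ee, Wt, h1, h2]
  · intro b _ hb
    simp [ee, hb]
  · intro hq
    exact absurd (Finset.mem_univ _) hq

theorem mul_ee (T : Matrix κ κ ℕ) (p : κ) (q : β) (p' : κ) (q' : β) :
    (T * ee p q) p' q' = if q' = q then T p' p else 0 := by
  rw [Matrix.mul_apply, Finset.sum_eq_single p]
  · by_cases h2 : q' = q <;> simp [ee, h2]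
  · intro b _ hb
    simp [ee, hb]
  · intro hq
    exact absurd (Finset.mem_univ _) hq

theorem fire {π : Equiv.Perm κ} {h : κ → ℕ} (hπ : ∀ p, h (π p) = h p) {T : Matrix κ κ ℕ}
    (hT : CT π h T) {ρ : Equiv.Perm β} {w : β → ℕ}
    (Good : Matrix κ β ℕ → Matrix κ β ℕ → Prop)
    (ha : ∀ Z σ, Good Z σ → ∀ p q, (∀ k : ℕ, σ ((π ^ k) p) ((ρ ^ k) q) ≠ 0) →
      ∃ k : ℕ, w ((ρ ^ k) q) ≤ Z ((π ^ k) p) (ρ ((ρ ^ k) q)))
    (hb : ∀ Z σ p q, Good Z σ → σ p q ≠ 0 → w q ≤ Z p (ρ q) →
      Good (fun p' q' => (Z p' q' - if p' = p ∧ q' = ρ q then w q else 0) +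
        if q' = q then T p' p else 0) (fun p' q' => σ p' q' - if p' = p ∧ q' = q then 1 else 0))
    (n : ℕ) : ∀ Z Z' σ : Matrix κ β ℕ, ∑ p, ∑ q, σ p q = n → Good Z σ →
      Z + T * σ = Z' + σ * Wt ρ w →
      ∃ S k, Ch (M T Z (Wt ρ w)) (M T Z' (Wt ρ w)) (fromBlocks 1 σ 0 1) S k := by
  induction n with
  | zero =>
    intro Z Z' σ hs _ he
    have hs0 : σ = 0 := by
      ext p q
      rw [Finset.sum_eq_zero_iff] at hs
      have h1 := hs p (Finset.mem_univ _)
      rw [Finset.sum_eq_zero_iff] at h1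
      exact h1 q (Finset.mem_univ _)
    subst hs0
    have : Z = Z' := by simpa using he
    subst this
    refine ⟨1, 0, ?_⟩
    have := Ch.refl (M T Z (Wt ρ w))
    simpa using this
  | succ n ih =>
    intro Z Z' σ hs hg he
    -- there is a site that can fire
    have hfire : ∃ p q, σ p q ≠ 0 ∧ w q ≤ Z p (ρ q) := by
      by_contra hc
      push Not at hc
      obtain ⟨p0, q0, h0⟩ : ∃ p q, σ p q ≠ 0 := by
        by_contra hz
        push Not at hz
        have : ∑ p, ∑ q, σ p q = 0 := Finset.sum_eq_zero fun p _ => Finset.sum_eq_zero fun q _ =>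
          hz p q
        omega
      -- choose maximal height
      let s : Finset (κ × β) := Finset.univ.filter (fun x => σ x.1 x.2 ≠ 0)
      have hsne : s.Nonempty := ⟨(p0, q0), by simp [s, h0]⟩
      obtain ⟨⟨p1, q1⟩, hm1, hm2⟩ := Finset.exists_max_image s (fun x => h x.1) hsne
      have hmax : ∀ p q, σ p q ≠ 0 → h p ≤ h p1 := by
        intro p q hpq
        exact hm2 (p, q) (by simp [s, hpq])
      have hpq1 : σ p1 q1 ≠ 0 := by simpa [s] using hm1
      have horb : ∀ k : ℕ, σ ((π ^ k) p1) ((ρ ^ k) q1) ≠ 0 ∧ h ((π ^ k) p1) = h p1 := by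
        intro k
        induction k with
        | zero => exact ⟨hpq1, rfl⟩
        | succ k ihk =>
          obtain ⟨g1, g2⟩ := ihk
          set p := (π ^ k) p1 with hp
          set q := (ρ ^ k) q1 with hq
          have e1 : (π ^ (k + 1)) p1 = π p := by rw [pow_succ', Equiv.Perm.mul_apply]
          have e2 : (ρ ^ (k + 1)) q1 = ρ q := by rw [pow_succ', Equiv.Perm.mul_apply]
          rw [e1, e2]
          have e3 := congrFun (congrFun he p) (ρ q)
          simp only [Matrix.add_apply] at e3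
          rw [mul_Wt] at e3
          have e4 := hc p q g1
          have e5 : w q ≤ σ p q * w q := Nat.le_mul_of_pos_left _ (Nat.pos_of_ne_zero g1)
          have e6 : (T * σ) p (ρ q) ≠ 0 := by omega
          rw [Matrix.mul_apply] at e6
          obtain ⟨p2, -, hp2⟩ := Finset.exists_ne_zero_of_sum_ne_zero e6
          have f1 : T p p2 ≠ 0 := left_ne_zero_of_mul hp2
          have f2 : σ p2 (ρ q) ≠ 0 := right_ne_zero_of_mul hp2
          rcases hT p p2 f1 with f3 | f3
          · rw [← f3]
            refine ⟨f2, ?_⟩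
            rw [f3, hπ, g2]
          · have := hmax p2 _ f2
            omega
      obtain ⟨k, hk⟩ := ha Z σ hg p1 q1 (fun k => (horb k).1)
      exact absurd (hc _ _ (horb k).1) (by omega)
    obtain ⟨p, q, hpq, hw⟩ := hfire
    set Z1 : Matrix κ β ℕ := fun p' q' => (Z p' q' - if p' = p ∧ q' = ρ q then w q else 0) +
        if q' = q then T p' p else 0 with hZ1
    set σ1 : Matrix κ β ℕ := fun p' q' => σ p' q' - if p' = p ∧ q' = q then 1 else 0 with hσ1
    have hle : ∀ p' q', (ee p q * Wt ρ w) p' q' ≤ Z p' q' := by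
      intro p' q'
      rw [ee_mul]
      split_ifs with hc
      · obtain ⟨rfl, rfl⟩ := hc
        exact hw
      · exact Nat.zero_le _
    have e1 : Z + T * ee p q = Z1 + ee p q * Wt ρ w := by
      ext p' q'
      have h1 := hle p' q'
      rw [ee_mul] at h1
      simp only [Matrix.add_apply, hZ1]
      rw [ee_mul, mul_ee]
      omega
    have e0 : σ = ee p q + σ1 := by
      ext p' q'
      simp only [hσ1, Matrix.add_apply, ee]
      split_ifs with hc
      · obtain ⟨rfl, rfl⟩ := hc
        omega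
      · omega
    obtain ⟨S1, h1⟩ := round T e1 hle
    have e2 : Z1 + T * σ1 = Z' + σ1 * Wt ρ w := by
      have : (Z1 + T * σ1) + ee p q * Wt ρ w = (Z' + σ1 * Wt ρ w) + ee p q * Wt ρ w := by
        calc (Z1 + T * σ1) + ee p q * Wt ρ w = (Z1 + ee p q * Wt ρ w) + T * σ1 := by abel
          _ = Z + (T * ee p q + T * σ1) := by rw [← e1]; abel
          _ = Z + T * σ := by rw [← Matrix.mul_add, ← e0]
          _ = Z' + σ * Wt ρ w := he
          _ = (Z' + σ1 * Wt ρ w) + ee p q * Wt ρ w := by
            conv_lhs => rw [e0, Matrix.add_mul]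
            abel
      exact add_right_cancel this
    have hsum : ∑ p, ∑ q, σ1 p q = n := by
      have : ∑ p', ∑ q', σ p' q' = 1 + ∑ p', ∑ q', σ1 p' q' := by
        conv_lhs => rw [e0]
        simp only [Matrix.add_apply, Finset.sum_add_distrib]
        congr 1
        rw [Finset.sum_eq_single p, Finset.sum_eq_single q]
        · simp [ee]
        · intro b _ hb
          simp [ee, hb]
        · intro hq
          exact absurd (Finset.mem_univ _) hq
        · intro b _ hb
          apply Finset.sum_eq_zero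
          intro q' _
          simp [ee, hb]
        · intro hq
          exact absurd (Finset.mem_univ _) hq
      omega
    obtain ⟨S2, k2, h2⟩ := ih Z1 Z' σ1 hsum (hb Z σ p q hg hpq hw) e2
    refine ⟨S2 * S1, 1 + k2, ?_⟩
    have := h1.trans h2
    rw [U_mul, ← e0] at this
    exact this

end Pool.Agent.H32.SSC
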