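import Pool.Agent.H32.SSC.Comp

open Matrix

namespace Pool.Agent.H32.SSC

open Pool.Agent.H32.SSE

/-- `A` is triangular with respect to the height function `h`. -/
def Tri {α : Type} (h : α → ℕ) (A : Matrix α α ℕ) : Prop := ∀ i j, A i j ≠ 0 → i = j ∨ h i < h j

theorem transfer {α : Type} [Fintype α] [DecidableEq α] {A B C R S D D' : Matrix α α ℕ} {ℓ k : ℕ}
    (h : Ch A C D D' k) (e1 : A * R = R * B) (e2 : S * A = B * S) (e3 : R * S = A ^ ℓ)
    (e4 : S * R = B ^ ℓ) (j : ℕ) :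
    C * (D' * R * B ^ j) = (D' * R * B ^ j) * B ∧
      (D' * R * B ^ j) * (S * D) = C ^ (ℓ + j + k) ∧
      (S * D) * (D' * R * B ^ j) = B ^ (ℓ + j + k) ∧
      (Real C B (D' * R * B ^ j) → Real A B R) := by
  obtain ⟨l1, l2, l3, l4⟩ := h.props
  refine ⟨?_, ?_, ?_, ?_⟩
  · calc C * (D' * R * B ^ j) = (C * D') * R * B ^ j := by simp only [Matrix.mul_assoc]
      _ = D' * (A * R) * B ^ j := by rw [l4]; simp only [Matrix.mul_assoc]
      _ = D' * R * (B * B ^ j) := by rw [e1]; simp only [Matrix.mul_assoc]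
      _ = _ := by rw [← pow_succ', pow_succ]; simp only [Matrix.mul_assoc]
  · calc (D' * R * B ^ j) * (S * D) = D' * R * (B ^ j * S) * D := by simp only [Matrix.mul_assoc]
      _ = D' * (R * S) * A ^ j * D := by rw [comm_pow e2.symm j]; simp only [Matrix.mul_assoc]
      _ = D' * (A ^ (ℓ + j) * D) := by rw [e3, pow_add]; simp only [Matrix.mul_assoc]
      _ = D' * D * C ^ (ℓ + j) := by rw [comm_pow l3]; simp only [Matrix.mul_assoc]
      _ = _ := by rw [l2, ← pow_add]; congr 1; omega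
  · calc (S * D) * (D' * R * B ^ j) = S * (D * D') * R * B ^ j := by simp only [Matrix.mul_assoc]
      _ = (S * A ^ k) * R * B ^ j := by rw [l1]
      _ = B ^ k * (S * R) * B ^ j := by rw [← comm_pow e2.symm k]; simp only [Matrix.mul_assoc]
      _ = _ := by rw [e4, ← pow_add, ← pow_add]; congr 1; omega
  · intro hr
    exact Real.pre h e1 hr.of_pow

theorem submatrix_pow {α γ : Type} [Fintype α] [DecidableEq α] [Fintype γ] [DecidableEq γ]
    (e : γ ≃ α) (C : Matrix α α ℕ) (m : ℕ) : (C ^ m).submatrix e e = (C.submatrix e e) ^ m := by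
  induction m with
  | zero => simp
  | succ m ihm => rw [pow_succ, ← submatrix_mul_equiv _ _ _ e, ihm, pow_succ]

/-- the block form of the main step -/
theorem main_block {κ β : Type} [Fintype κ] [DecidableEq κ] [Fintype β] [DecidableEq β]
    {π : Equiv.Perm κ} {h : κ → ℕ} (hπ : ∀ p, h (π p) = h p) {T T' : Matrix κ κ ℕ}
    (hT' : CT π h T') (hT0' : ∀ p, T' p (π p) ≠ 0) {ρ : Equiv.Perm β} {w w' r sv : β → ℕ}
    (hw : ∀ q, w q ≠ 0) (hw' : ∀ q, w' q ≠ 0) (hr : ∀ q, r q ≠ 0) (hsv : ∀ q, sv q ≠ 0)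
    (hρ : ∀ q q', ∃ k : ℕ, (ρ ^ k) q = q')
    {Y Y' ρ0 s0 : Matrix κ β ℕ} {RT ST : Matrix κ κ ℕ} {ℓ : ℕ}
    (e1 : M T Y (Wt ρ w) * M RT ρ0 (diagonal r) = M RT ρ0 (diagonal r) * M T' Y' (Wt ρ w'))
    (e2 : M ST s0 (diagonal sv) * M T Y (Wt ρ w) = M T' Y' (Wt ρ w') * M ST s0 (diagonal sv))
    (e3 : M RT ρ0 (diagonal r) * M ST s0 (diagonal sv) = (M T Y (Wt ρ w)) ^ ℓ)
    (e4 : M ST s0 (diagonal sv) * M RT ρ0 (diagonal r) = (M T' Y' (Wt ρ w')) ^ ℓ)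
    (ih : T * RT = RT * T' → ST * T = T' * ST → RT * ST = T ^ ℓ → ST * RT = T' ^ ℓ →
      Real T T' RT) :
    Real (M T Y (Wt ρ w)) (M T' Y' (Wt ρ w')) (M RT ρ0 (diagonal r)) := by
  have F1 := e1
  have F2 := e2
  have F3 := e3
  have F4 := e4
  obtain ⟨Ya, hYa, -⟩ := pow_M T Y (Wt ρ w) ℓ
  obtain ⟨Yb, hYb, -⟩ := pow_M T' Y' (Wt ρ w') ℓ
  rw [hYa] at F3
  rw [hYb] at F4
  simp only [fromBlocks_multiply, Matrix.mul_zero, Matrix.zero_mul, add_zero, zero_add,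
    fromBlocks_inj] at F1 F2 F3 F4
  obtain ⟨F11, -, -, F14⟩ := F1
  obtain ⟨F21, -, -, -⟩ := F2
  obtain ⟨F31, -, -, F34⟩ := F3
  obtain ⟨F41, -, -, -⟩ := F4
  obtain ⟨R0, S0, k, i, j, hc, he⟩ := ih F11 F21 F31 F41
  -- the last component
  have hrw : ∀ q, w q * r (ρ q) = r q * w' q := by
    intro q
    have := congrFun (congrFun F14 q) (ρ q)
    rw [Wt_diag, diag_Wt] at this
    simpa [Wt] using this
  obtain ⟨v, hv1, hv2⟩ := Wt_pow_prime ρ w ℓ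
  have hpr : ∀ p : ℕ, p.Prime → ∀ q, p ∣ r q → p ∣ ∏ q, w q := by
    intro p hp q hq
    have := congrFun (congrFun F34 q) q
    rw [Matrix.diagonal_mul_diagonal, hv1, Matrix.diagonal_apply_eq] at this
    simp only [Wt] at this
    split_ifs at this with hc
    · exact hv2 p hp q (hq.trans (Dvd.intro _ this))
    · exact absurd this (Nat.mul_ne_zero (hr q) (hsv q))
  obtain ⟨SW, kw, hW⟩ := comp hρ _ w w' r rfl hw hr hrw hpr
  obtain ⟨X0, hl⟩ := liftT hc Y (Wt ρ w)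
  obtain ⟨X1, hl'⟩ := liftW hW T' (S0 * Y)
  have hll := hl.trans hl'
  obtain ⟨t1, t2, t3, t4⟩ := transfer hll e1 e2 e3 e4 j
  apply t4
  obtain ⟨c1, c2, c3, c4⟩ := hc.props
  obtain ⟨d1, d2, d3, d4⟩ := hW.props
  obtain ⟨Yj, hYj, -⟩ := pow_M T' Y' (Wt ρ w') j
  have eQ : fromBlocks (T' ^ kw) X1 0 SW * fromBlocks S0 0 0 (1 : Matrix β β ℕ) *
      M RT ρ0 (diagonal r) * (M T' Y' (Wt ρ w')) ^ j =
      fromBlocks (T' ^ (kw + k + i)) (T' ^ kw * S0 * RT * Yj +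
        (T' ^ kw * S0 * ρ0 + X1 * diagonal r) * (Wt ρ w') ^ j) 0 ((Wt ρ w') ^ (kw + j)) := by
    rw [hYj]
    simp only [fromBlocks_multiply, Matrix.mul_one,
      Matrix.one_mul, Matrix.mul_zero, Matrix.zero_mul, add_zero, zero_add]
    have g1 : T' ^ kw * S0 * RT * T' ^ j = T' ^ (kw + k + i) := by
      rw [Matrix.mul_assoc, ← he, ← Matrix.mul_assoc, Matrix.mul_assoc (T' ^ kw), c2, pow_add,
        pow_add]
    have g2 : SW * diagonal r * (Wt ρ w') ^ j = (Wt ρ w') ^ (kw + j) := by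
      rw [d2, pow_add]
    rw [g1, g2]
  rw [eQ] at t1 t2 t3 ⊢
  exact core hπ hT' hT0' hw' hρ _ t1 t2 t3

end Pool.Agent.H32.SSC
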