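import Pool.Agent.H32.SSC.Fire

open Matrix

namespace Pool.Agent.H32.SSC

open Pool.Agent.H32.SSE

variable {κ β : Type} [Fintype κ] [DecidableEq κ] [Fintype β] [DecidableEq β]

theorem mul_ne {α β γ : Type} [Fintype β] {R : Matrix α β ℕ} {S : Matrix β γ ℕ}
    {i : α} {k : β} {j : γ} (h1 : R i k ≠ 0) (h2 : S k j ≠ 0) : (R * S) i j ≠ 0 := by
  rw [Matrix.mul_apply]
  intro h0
  rw [Finset.sum_eq_zero_iff] at h0
  exact (mul_ne_zero h1 h2) (h0 k (Finset.mem_univ _))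

theorem ne_mul {α β γ : Type} [Fintype β] {R : Matrix α β ℕ} {S : Matrix β γ ℕ}
    {i : α} {j : γ} (h : (R * S) i j ≠ 0) : ∃ k, R i k ≠ 0 ∧ S k j ≠ 0 := by
  rw [Matrix.mul_apply] at h
  obtain ⟨k, -, hk⟩ := Finset.exists_ne_zero_of_sum_ne_zero h
  exact ⟨k, left_ne_zero_of_mul hk, right_ne_zero_of_mul hk⟩

theorem pow_ne {α : Type} [Fintype α] [DecidableEq α] {π : Equiv.Perm α} {A : Matrix α α ℕ}
    (hA : ∀ i, A i (π i) ≠ 0) (k : ℕ) (i : α) : (A ^ k) i ((π ^ k) i) ≠ 0 := by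
  induction k with
  | zero => simp
  | succ k ih =>
    rw [pow_succ, pow_succ', Equiv.Perm.mul_apply]
    exact mul_ne ih (hA _)

theorem pow_one_of {α : Type} {π : Equiv.Perm α} {N : ℕ} (h : π ^ N = 1) (j : ℕ) :
    π ^ (j * N) = 1 := by
  rw [Nat.mul_comm, pow_mul, h, one_pow]

section Goods

variable (π : Equiv.Perm κ) (ρ : Equiv.Perm β) (w : β → ℕ)

def Good1 (Z σ : Matrix κ β ℕ) : Prop :=
  ∀ p q, (∀ k : ℕ, σ ((π ^ k) p) ((ρ ^ k) q) ≠ 0) → ∃ k : ℕ, Z ((π ^ k) p) (ρ ((ρ ^ k) q)) ≠ 0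

def Good2 (Z σ : Matrix κ β ℕ) : Prop :=
  ∀ p q, (∀ k : ℕ, σ ((π ^ k) p) ((ρ ^ k) q) ≠ 0) →
    ∃ k : ℕ, w ((ρ ^ k) q) * σ ((π ^ k) p) ((ρ ^ k) q) ≤ Z ((π ^ k) p) (ρ ((ρ ^ k) q))

variable {π ρ w}

theorem Good1.step {T : Matrix κ κ ℕ} (hT0 : ∀ p, T p (π p) ≠ 0) {N : ℕ} (hN : 0 < N)
    (hπN : π ^ N = 1) (hρN : ρ ^ N = 1) {Z σ : Matrix κ β ℕ} {p0 : κ} {q0 : β} (hg : Good1 π ρ Z σ) :
      Good1 π ρ (fun p' q' => (Z p' q' - if p' = p0 ∧ q' = ρ q0 then w q0 else 0) +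
        if q' = q0 then T p' p0 else 0) (fun p' q' => σ p' q' - if p' = p0 ∧ q' = q0 then 1 else 0) := by
  intro p q hs
  obtain ⟨k, hk⟩ := hg p q (fun k => by
    have := hs k
    simp only at this
    omega)
  by_cases hc : (π ^ k) p = p0 ∧ ρ ((ρ ^ k) q) = ρ q0
  · obtain ⟨c1, c2⟩ := hc
    have c3 : (ρ ^ k) q = q0 := ρ.injective c2
    obtain ⟨n, rfl⟩ : ∃ n, N = n + 1 := ⟨N - 1, by omega⟩
    refine ⟨n + k, ?_⟩
    have d1 : ρ ((ρ ^ (n + k)) q) = q0 := by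
      rw [← Equiv.Perm.mul_apply, ← pow_succ', Nat.add_right_comm, pow_add, Equiv.Perm.mul_apply, c3,
        hρN, Equiv.Perm.one_apply]
    have d2 : π ((π ^ (n + k)) p) = p0 := by
      rw [← Equiv.Perm.mul_apply, ← pow_succ', Nat.add_right_comm, pow_add, Equiv.Perm.mul_apply, c1,
        hπN, Equiv.Perm.one_apply]
    have d3 := hT0 ((π ^ (n + k)) p)
    rw [d2] at d3
    simp only [d1, if_true]
    omega
  · refine ⟨k, ?_⟩
    simp only [hc, if_false]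
    omega

theorem Good2.step {T : Matrix κ κ ℕ} {Z σ : Matrix κ β ℕ} {p0 : κ} {q0 : β}
    (hg : Good2 π ρ w Z σ) :
      Good2 π ρ w (fun p' q' => (Z p' q' - if p' = p0 ∧ q' = ρ q0 then w q0 else 0) +
        if q' = q0 then T p' p0 else 0) (fun p' q' => σ p' q' - if p' = p0 ∧ q' = q0 then 1 else 0) := by
  intro p q hs
  obtain ⟨k, hk⟩ := hg p q (fun k => by
    have := hs k
    simp only at this
    omega)
  refine ⟨k, ?_⟩
  by_cases hc : (π ^ k) p = p0 ∧ (ρ ^ k) q = q0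
  · obtain ⟨c1, c2⟩ := hc
    have h1 := hs k
    simp only [c1, c2, and_self, if_true] at hk h1 ⊢
    obtain ⟨m, hm⟩ : ∃ m, σ p0 q0 = m + 1 := ⟨σ p0 q0 - 1, by omega⟩
    rw [hm] at hk ⊢
    rw [Nat.mul_succ] at hk
    simp only [Nat.add_sub_cancel]
    omega
  · have hc' : ¬ ((π ^ k) p = p0 ∧ ρ ((ρ ^ k) q) = ρ q0) := fun h => hc ⟨h.1, ρ.injective h.2⟩
    simp only [hc, hc', if_false, Nat.sub_zero]
    omega

end Goods

/-- the index `(p, q)` is connected to the connecting edges -/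
def Cn (T : Matrix κ κ ℕ) (ρ : Equiv.Perm β) (Z : Matrix κ β ℕ) (p : κ) (q : β) : Prop :=
  ∃ (i : ℕ) (p' : κ), (T ^ i) p p' ≠ 0 ∧ Z p' (ρ ((ρ ^ i) q)) ≠ 0

theorem supply {π : Equiv.Perm κ} {T : Matrix κ κ ℕ} (hT0 : ∀ p, T p (π p) ≠ 0)
    {ρ : Equiv.Perm β} {N : ℕ} (hπN : π ^ N = 1) (Z : Matrix κ β ℕ) :
    ∃ K0 : ℕ, ∀ j, K0 ≤ j * N → ∀ p q, Cn T ρ Z p q →
      ∃ k : ℕ, (T ^ (j * N) * Z) ((π ^ k) p) (ρ ((ρ ^ k) q)) ≠ 0 := by
  classical
  have : ∀ x : κ × β, ∃ i : ℕ, Cn T ρ Z x.1 x.2 →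
      ∃ p', (T ^ i) x.1 p' ≠ 0 ∧ Z p' (ρ ((ρ ^ i) x.2)) ≠ 0 := by
    intro x
    by_cases hx : Cn T ρ Z x.1 x.2
    · obtain ⟨i, p', h⟩ := hx
      exact ⟨i, fun _ => ⟨p', h⟩⟩
    · exact ⟨0, fun h => absurd h hx⟩
  choose f hf using this
  refine ⟨∑ x, f x, fun j hj p q hpq => ?_⟩
  obtain ⟨p', h1, h2⟩ := hf (p, q) hpq
  have h3 : f (p, q) ≤ j * N :=
    (Finset.single_le_sum (f := f) (fun _ _ => Nat.zero_le _) (Finset.mem_univ (p, q))).trans hj
  set i := f (p, q) with hi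
  refine ⟨i, ?_⟩
  have h4 : (T ^ (j * N - i)) ((π ^ i) p) p ≠ 0 := by
    have := pow_ne hT0 (j * N - i) ((π ^ i) p)
    rwa [← Equiv.Perm.mul_apply, ← pow_add, Nat.sub_add_cancel h3, pow_one_of hπN,
      Equiv.Perm.one_apply] at this
  have h5 : (T ^ (j * N)) ((π ^ i) p) p' ≠ 0 := by
    have := mul_ne h4 h1
    rwa [← pow_add, Nat.sub_add_cancel h3] at this
  exact mul_ne h5 h2

theorem Cn.of_pow {T : Matrix κ κ ℕ} {ρ : Equiv.Perm β} {N : ℕ} (hρN : ρ ^ N = 1)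
    {Z σ : Matrix κ β ℕ} (h : ∀ p q, σ p q ≠ 0 → Cn T ρ Z p q) (j : ℕ) {p : κ} {q : β}
    (hpq : (T ^ (j * N) * σ) p q ≠ 0) : Cn T ρ Z p q := by
  obtain ⟨p1, h1, h2⟩ := ne_mul hpq
  obtain ⟨i, p', h3, h4⟩ := h p1 q h2
  refine ⟨j * N + i, p', ?_, ?_⟩
  · rw [pow_add]
    exact mul_ne h1 h3
  · rwa [pow_add, pow_one_of hρN, one_mul]

theorem Wt_mul (ρ ρ' : Equiv.Perm β) (w w' : β → ℕ) :
    Wt ρ w * Wt ρ' w' = Wt (ρ' * ρ) (fun q => w q * w' (ρ q)) := by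
  ext q q'
  rw [Matrix.mul_apply, Finset.sum_eq_single (ρ q)]
  · by_cases h : q' = ρ' (ρ q) <;> simp [Wt, h]
  · intro b _ hb
    simp [Wt, hb]
  · intro hq
    exact absurd (Finset.mem_univ _) hq

theorem Wt_one (v : β → ℕ) : Wt (1 : Equiv.Perm β) v = diagonal v := by
  ext q q'
  by_cases h : q = q'
  · subst h; simp [Wt]
  · have h' : ¬ q' = q := fun e => h e.symm
    simp [Wt, h, h']

theorem Wt_pow (ρ : Equiv.Perm β) {w : β → ℕ} (hw : ∀ q, w q ≠ 0) (k : ℕ) :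
    ∃ v : β → ℕ, (Wt ρ w) ^ k = Wt (ρ ^ k) v ∧ (∀ q, v q ≠ 0) ∧ (0 < k → ∀ q, w q ∣ v q) := by
  induction k with
  | zero =>
    refine ⟨fun _ => 1, ?_, fun q => one_ne_zero, fun h => absurd h (lt_irrefl _)⟩
    rw [pow_zero, pow_zero, Wt_one]
    simp
  | succ k ih =>
    obtain ⟨v, h1, h2, h3⟩ := ih
    refine ⟨fun q => w q * v (ρ q), ?_, fun q => Nat.mul_ne_zero (hw q) (h2 _),
      fun _ q => Dvd.intro _ rfl⟩
    rw [pow_succ', h1, Wt_mul, pow_succ]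

theorem Wt_pow_prime (ρ : Equiv.Perm β) (w : β → ℕ) (k : ℕ) :
    ∃ v : β → ℕ, (Wt ρ w) ^ k = Wt (ρ ^ k) v ∧
      ∀ p : ℕ, p.Prime → ∀ q, p ∣ v q → p ∣ ∏ q, w q := by
  induction k with
  | zero =>
    refine ⟨fun _ => 1, ?_, fun p hp q h => absurd (Nat.dvd_one.1 h) hp.one_lt.ne'⟩
    rw [pow_zero, pow_zero, Wt_one]
    simp
  | succ k ih =>
    obtain ⟨v, h1, h2⟩ := ih
    refine ⟨fun q => w q * v (ρ q), ?_, fun p hp q h => ?_⟩
    · rw [pow_succ', h1, Wt_mul, pow_succ]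
    · rcases (Nat.Prime.dvd_mul hp).1 h with h | h
      · exact h.trans (Finset.dvd_prod_of_mem w (Finset.mem_univ q))
      · exact h2 p hp _ h

theorem Wt_pow_scalar {ρ : Equiv.Perm β} {w : β → ℕ} (hw : ∀ q, w q ≠ 0)
    (hρ : ∀ q q', ∃ k : ℕ, (ρ ^ k) q = q') {N : ℕ} (hN : 0 < N) (hρN : ρ ^ N = 1) {q1 : β}
    (hq1 : w q1 ≠ 1) :
    ∃ d : ℕ, 2 ≤ d ∧ (Wt ρ w) ^ N = d • (1 : Matrix β β ℕ) := by
  obtain ⟨v, h1, h2, h3⟩ := Wt_pow ρ hw N
  have hv : ∀ q, v (ρ q) = v q := by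
    intro q
    have e1 : Wt ρ w * (Wt ρ w) ^ N = (Wt ρ w) ^ N * Wt ρ w := by rw [← pow_succ, ← pow_succ']
    rw [h1, Wt_mul, Wt_mul] at e1
    have e2 := congrFun (congrFun e1 q) (ρ q)
    simp only [Wt, hρN, one_mul, mul_one, if_true, Equiv.Perm.one_apply] at e2
    have e3 : w q * v (ρ q) = w q * v q := by rw [e2, Nat.mul_comm]
    exact Nat.eq_of_mul_eq_mul_left (Nat.pos_of_ne_zero (hw q)) e3
  have hv2 : ∀ k q, v ((ρ ^ k) q) = v q := by
    intro k q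
    induction k with
    | zero => rfl
    | succ k ih => rw [pow_succ', Equiv.Perm.mul_apply, hv, ih]
  have hv3 : v = fun _ => v q1 := by
    funext q
    obtain ⟨k, hk⟩ := hρ q1 q
    rw [← hk, hv2]
  refine ⟨v q1, ?_, ?_⟩
  · have g1 := h3 hN q1
    have g2 := Nat.le_of_dvd (Nat.pos_of_ne_zero (h2 q1)) g1
    have g3 := hw q1
    omega
  · rw [h1, hρN, Wt_one, hv3]
    ext i j
    by_cases hij : i = j
    · subst hij; simp
    · simp [hij]

/-- the path lemma -/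
theorem path {π : Equiv.Perm κ} {h : κ → ℕ} (hπ : ∀ p, h (π p) = h p) {T : Matrix κ κ ℕ}
    (hT : CT π h T) (hT0 : ∀ p, T p (π p) ≠ 0) {ρ : Equiv.Perm β} {w : β → ℕ} (hw : ∀ q, w q ≠ 0)
    (hρ : ∀ q q', ∃ k : ℕ, (ρ ^ k) q = q') {Z Z' σ : Matrix κ β ℕ}
    (he : Z + T * σ = Z' + σ * Wt ρ w)
    (hs : ∀ p q, σ p q ≠ 0 → Cn T ρ Z p q ∧ Cn T ρ Z' p q) :
    Real (M T Z (Wt ρ w)) (M T Z' (Wt ρ w)) (fromBlocks 1 σ 0 1) := by
  set N := orderOf π * orderOf ρ with hN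
  have hN0 : 0 < N := Nat.mul_pos (orderOf_pos π) (orderOf_pos ρ)
  have hπN : π ^ N = 1 := by rw [hN, pow_mul, pow_orderOf_eq_one, one_pow]
  have hρN : ρ ^ N = 1 := by rw [hN, Nat.mul_comm, pow_mul, pow_orderOf_eq_one, one_pow]
  obtain ⟨K1, hK1⟩ := supply hT0 (ρ := ρ) hπN Z
  obtain ⟨K2, hK2⟩ := supply hT0 (ρ := ρ) hπN Z'
  set j0 := max K1 K2 with hj0
  set K := j0 * N with hK
  have hKj : j0 ≤ K := Nat.le_mul_of_pos_right _ hN0
  have g1 := hK1 j0 ((le_max_left K1 K2).trans hKj)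
  have g2 := hK2 j0 ((le_max_right K1 K2).trans hKj)
  rw [← hK] at g1 g2
  have c1 : ∀ p q, (T ^ K * σ) p q ≠ 0 → Cn T ρ Z p q := fun p q hpq =>
    Cn.of_pow hρN (fun p q h => (hs p q h).1) j0 hpq
  have c2 : ∀ p q, (T ^ K * σ) p q ≠ 0 → Cn T ρ Z' p q := fun p q hpq =>
    Cn.of_pow hρN (fun p q h => (hs p q h).2) j0 hpq
  set ZZ := T ^ K * Z with hZZ
  set ZZ' := T ^ K * Z' with hZZ'
  set ss := T ^ K * σ with hss
  have e : ZZ + T * ss = ZZ' + ss * Wt ρ w := by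
    have h1 : T * (T ^ K * σ) = T ^ K * (T * σ) := by
      rw [← Matrix.mul_assoc, ← Matrix.mul_assoc, ← pow_succ, ← pow_succ']
    rw [hZZ, hss, h1, ← Matrix.mul_add, he, Matrix.mul_add, Matrix.mul_assoc]
  have hstep : Real (M T ZZ (Wt ρ w)) (M T ZZ' (Wt ρ w)) (fromBlocks 1 ss 0 1) := by
    by_cases hw1 : ∀ q, w q = 1
    · obtain ⟨S, k, hc⟩ := fire (w := w) (ρ := ρ) hπ hT (Good1 π ρ)
        (fun Z σ hg p q ho => by
          obtain ⟨k, hk⟩ := hg p q ho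
          refine ⟨k, ?_⟩
          rw [hw1]
          omega)
        (fun Z σ p q hg _ _ => hg.step hT0 hN0 hπN hρN) _ ZZ ZZ' ss rfl
        (fun p q ho => g1 p q (c1 p q (by simpa using ho 0))) e
      exact hc.real
    · push Not at hw1
      obtain ⟨q1, hq1⟩ := hw1
      obtain ⟨d, hd, hWd⟩ := Wt_pow_scalar hw hρ hN0 hρN hq1
      set b : ℕ := ∑ p, ∑ q, w q * ss p q with hb
      have hbb : ∀ p q, w q * ss p q ≤ b := by
        intro p q
        have h1 : w q * ss p q ≤ ∑ q, w q * ss p q :=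
          Finset.single_le_sum (f := fun q => w q * ss p q) (fun _ _ => Nat.zero_le _)
            (Finset.mem_univ q)
        have h2 : ∑ q, w q * ss p q ≤ b :=
          Finset.single_le_sum (f := fun p => ∑ q, w q * ss p q) (fun _ _ => Nat.zero_le _)
            (Finset.mem_univ p)
        exact h1.trans h2
      set m : ℕ := d ^ (b + b) with hm
      have hbm : b + b ≤ m := (Nat.lt_pow_self (by omega)).le
      have hWm : (Wt ρ w) ^ (N * (b + b)) = m • (1 : Matrix β β ℕ) := by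
        rw [pow_mul, hWd, smul_pow, one_pow]
      have key : ∀ t, t ≤ m → ∃ S k, Ch (M T (m • ZZ) (Wt ρ w))
          (M T ((m - t) • ZZ + t • ZZ') (Wt ρ w)) (fromBlocks 1 (t • ss) 0 1) S k := by
        intro t
        induction t with
        | zero =>
          intro _
          refine ⟨1, 0, ?_⟩
          have := Ch.refl (M T (m • ZZ) (Wt ρ w))
          simpa using this
        | succ t ih =>
          intro ht
          obtain ⟨S, k, hS⟩ := ih (by omega)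
          have e' : ((m - t) • ZZ + t • ZZ') + T * ss =
              ((m - (t + 1)) • ZZ + (t + 1) • ZZ') + ss * Wt ρ w := by
            have h1 : m - t = (m - (t + 1)) + 1 := by omega
            rw [h1, add_smul, add_smul, one_smul, one_smul]
            calc ((m - (t + 1)) • ZZ + ZZ + t • ZZ') + T * ss
                = (m - (t + 1)) • ZZ + t • ZZ' + (ZZ + T * ss) := by abel
              _ = (m - (t + 1)) • ZZ + t • ZZ' + (ZZ' + ss * Wt ρ w) := by rw [e]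
              _ = _ := by abel
          have hgood : Good2 π ρ w ((m - t) • ZZ + t • ZZ') ss := by
            intro p q ho
            have h0 : ss p q ≠ 0 := by simpa using ho 0
            rcases Nat.lt_or_ge t b with htb | htb
            · obtain ⟨k, hk⟩ := g1 p q (c1 p q h0)
              refine ⟨k, ?_⟩
              have h1 := hbb ((π ^ k) p) ((ρ ^ k) q)
              simp only [Matrix.add_apply, Matrix.smul_apply, smul_eq_mul]
              have h2 : m - t ≤ (m - t) * ZZ ((π ^ k) p) (ρ ((ρ ^ k) q)) :=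
                Nat.le_mul_of_pos_right _ (Nat.pos_of_ne_zero hk)
              omega
            · obtain ⟨k, hk⟩ := g2 p q (c2 p q h0)
              refine ⟨k, ?_⟩
              have h1 := hbb ((π ^ k) p) ((ρ ^ k) q)
              simp only [Matrix.add_apply, Matrix.smul_apply, smul_eq_mul]
              have h2 : t ≤ t * ZZ' ((π ^ k) p) (ρ ((ρ ^ k) q)) :=
                Nat.le_mul_of_pos_right _ (Nat.pos_of_ne_zero hk)
              omega
          obtain ⟨S', k', hS'⟩ := fire (w := w) (ρ := ρ) hπ hT (Good2 π ρ w)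
            (fun Z σ hg p q ho => by
              obtain ⟨k, hk⟩ := hg p q ho
              refine ⟨k, le_trans ?_ hk⟩
              exact Nat.le_mul_of_pos_right _ (Nat.pos_of_ne_zero (ho k)))
            (fun Z σ p q hg _ _ => hg.step) _ _ _ ss rfl hgood e'
          refine ⟨S' * S, k + k', ?_⟩
          have := hS.trans hS'
          rw [U_mul] at this
          simpa [add_smul] using this
      obtain ⟨S, k, hS⟩ := key m le_rfl
      obtain ⟨S1, h1⟩ := wshift T ZZ (Wt ρ w) (N * (b + b))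
      obtain ⟨S2, h2⟩ := wshift T ZZ' (Wt ρ w) (N * (b + b))
      rw [hWm] at h1 h2
      simp only [Matrix.mul_smul, Matrix.mul_one] at h1 h2
      have hS' : Ch (M T (m • ZZ) (Wt ρ w)) (M T (m • ZZ') (Wt ρ w))
          (fromBlocks 1 (m • ss) 0 1) S k := by
        simpa using hS
      refine Real.post h2 ?_
      have h3 := h1.trans hS'
      have e : (fromBlocks (1 : Matrix κ κ ℕ) 0 0 (m • (1 : Matrix β β ℕ))) *
          fromBlocks 1 (m • ss) 0 1 =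
          fromBlocks 1 ss 0 1 * fromBlocks (1 : Matrix κ κ ℕ) 0 0 (m • (1 : Matrix β β ℕ)) := by
        simp only [fromBlocks_multiply, Matrix.mul_smul, Matrix.mul_one,
          Matrix.one_mul, Matrix.mul_zero, Matrix.zero_mul, add_zero, zero_add, smul_zero]
      rw [e] at h3
      exact h3.real
  obtain ⟨S1, h1⟩ := tshift T Z (Wt ρ w) K
  obtain ⟨S2, h2⟩ := tshift T Z' (Wt ρ w) K
  have hcomm : M T Z (Wt ρ w) * fromBlocks 1 σ 0 1 = fromBlocks 1 σ 0 1 * M T Z' (Wt ρ w) := by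
    simp only [fromBlocks_multiply, Matrix.mul_one,
      Matrix.one_mul, Matrix.mul_zero, Matrix.zero_mul, add_zero, zero_add]
    rw [add_comm (T * σ), he]
  refine Real.pre h1.symm hcomm ?_
  have hc2 : M T (T ^ K * Z') (Wt ρ w) * fromBlocks (T ^ K) 0 0 1 =
      fromBlocks (T ^ K) 0 0 1 * M T Z' (Wt ρ w) := h2.props.2.2.1
  have := hstep.trans h2.real hc2
  have e2 : (fromBlocks (1 : Matrix κ κ ℕ) (T ^ K * σ) 0 (1 : Matrix β β ℕ)) *
      fromBlocks (T ^ K) 0 0 1 = fromBlocks (T ^ K) 0 0 1 * fromBlocks 1 σ 0 1 := by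
    simp only [fromBlocks_multiply, Matrix.mul_one,
      Matrix.one_mul, Matrix.mul_zero, Matrix.zero_mul, add_zero, zero_add]
  rw [e2] at this
  exact this

end Pool.Agent.H32.SSC
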