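import Pool.Agent.H32.SSE.Unip
import Pool.Agent.H32.SSC.Final

open Matrix

namespace Pool.Agent.H32.SSC

open Pool.Agent.H32.SSE hiding Tri

section

variable {α : Type} [Fintype α] [DecidableEq α]

def Rc (B : Matrix α α ℕ) (i j : α) : Prop := ∃ s : ℕ, (B ^ s) i j ≠ 0

theorem Rc.refl (B : Matrix α α ℕ) (i : α) : Rc B i i := ⟨0, by simp⟩

theorem Rc.trans {B : Matrix α α ℕ} {i j k : α} (h1 : Rc B i j) (h2 : Rc B j k) : Rc B i k := by
  obtain ⟨s, hs⟩ := h1
  obtain ⟨t, ht⟩ := h2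
  exact ⟨s + t, by rw [pow_add]; exact mul_ne hs ht⟩

theorem Rc.single {B : Matrix α α ℕ} {i j : α} (h : B i j ≠ 0) : Rc B i j := ⟨1, by simpa using h⟩

theorem closed_mul {B : Matrix α α ℕ} {k : ℕ} {i : α} (h : (B ^ k) i i ≠ 0) (m : ℕ) :
    (B ^ (k * m)) i i ≠ 0 := by
  induction m with
  | zero => simp
  | succ m ih =>
    rw [Nat.mul_succ, pow_add]
    exact mul_ne ih h

theorem out_unique {B : Matrix α α ℕ} (s1 : ∀ (k : ℕ), 0 < k → ∀ i, (B ^ k) i i ≤ 1) {i j k : α}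
    (hj : B i j ≠ 0) (hk : B i k ≠ 0) (rj : Rc B j i) (rk : Rc B k i) : j = k := by
  by_contra hjk
  obtain ⟨s, hs⟩ := rj
  obtain ⟨t, ht⟩ := rk
  have ca : (B ^ (s + 1)) i i ≠ 0 := by
    rw [pow_succ']
    exact mul_ne hj hs
  have cb : (B ^ (t + 1)) i i ≠ 0 := by
    rw [pow_succ']
    exact mul_ne hk ht
  have ha : (B ^ (s + (s + 1) * t)) j i ≠ 0 := by
    rw [pow_add]
    exact mul_ne hs (closed_mul ca t)
  have hb : (B ^ (s + (s + 1) * t)) k i ≠ 0 := by
    have : s + (s + 1) * t = t + (t + 1) * s := by ring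
    rw [this, pow_add]
    exact mul_ne ht (closed_mul cb s)
  have h1 := two_terms (B := B) (C := B ^ (s + (s + 1) * t)) (i := i) (j := i) hjk
  rw [← pow_succ'] at h1
  have h2 := s1 (s + (s + 1) * t + 1) (Nat.succ_pos _) i
  have h3 : 0 < B i j * (B ^ (s + (s + 1) * t)) j i := Nat.mul_pos (by omega) (by omega)
  have h4 : 0 < B i k * (B ^ (s + (s + 1) * t)) k i := Nat.mul_pos (by omega) (by omega)
  omega

theorem in_unique {B : Matrix α α ℕ} (s1 : ∀ (k : ℕ), 0 < k → ∀ i, (B ^ k) i i ≤ 1) {i j k : α}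
    (hj : B j i ≠ 0) (hk : B k i ≠ 0) (rj : Rc B i j) (rk : Rc B i k) : j = k := by
  have ht : ∀ (s : ℕ) (a b : α), (Bᵀ ^ s) a b = (B ^ s) b a := by
    intro s a b
    rw [← Matrix.transpose_pow, Matrix.transpose_apply]
  refine out_unique (B := Bᵀ) (i := i) (fun k hk i => ?_) hj hk ?_ ?_
  · rw [ht]
    exact s1 k hk i
  · obtain ⟨s, hs⟩ := rj
    exact ⟨s, by rw [ht]; exact hs⟩
  · obtain ⟨s, hs⟩ := rk
    exact ⟨s, by rw [ht]; exact hs⟩

theorem ct_of_trace {B : Matrix α α ℕ} {d ℓ : ℕ} (hl : 0 < ℓ)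
    (htr : ∀ k, ℓ ≤ k → trace (B ^ k) ≤ d) :
    ∃ (π : Equiv.Perm α) (h : α → ℕ), (∀ i, h (π i) = h i) ∧ CT π h B := by
  classical
  have hle : ∀ (k : ℕ), ℓ ≤ k → ∀ i, (B ^ k) i i ≤ d := by
    intro k hk i
    refine le_trans ?_ (htr k hk)
    rw [Matrix.trace]
    exact Finset.single_le_sum (f := fun i => (B ^ k).diag i) (fun _ _ => Nat.zero_le _)
      (Finset.mem_univ i)
  have hmul : ∀ (k m : ℕ) (i : α), ((B ^ k) i i) ^ m ≤ (B ^ (k * m)) i i := by
    intro k m i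
    induction m with
    | zero => simp
    | succ m ih =>
      calc ((B ^ k) i i) ^ (m + 1) = ((B ^ k) i i) ^ m * (B ^ k) i i := pow_succ _ _
        _ ≤ (B ^ (k * m)) i i * (B ^ k) i i := Nat.mul_le_mul_right _ ih
        _ ≤ (B ^ (k * m) * B ^ k) i i := one_term
        _ = (B ^ (k * (m + 1))) i i := by rw [← pow_add, Nat.mul_succ]
  have s1 : ∀ (k : ℕ), 0 < k → ∀ i, (B ^ k) i i ≤ 1 := by
    intro k hk i
    by_contra hc
    push Not at hc
    have h1 := hmul k (ℓ + d) i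
    have h2 := hle (k * (ℓ + d)) (by nlinarith) i
    have h3 : 2 ^ (ℓ + d) ≤ ((B ^ k) i i) ^ (ℓ + d) := Nat.pow_le_pow_left hc _
    have h4 : ℓ + d < 2 ^ (ℓ + d) := Nat.lt_two_pow_self
    omega
  -- the successor function
  have hex : ∀ i, ∃ j, (B i j ≠ 0 ∧ Rc B j i) ∨ ((¬ ∃ j, B i j ≠ 0 ∧ Rc B j i) ∧ j = i) := by
    intro i
    by_cases h : ∃ j, B i j ≠ 0 ∧ Rc B j i
    · obtain ⟨j, hj⟩ := h
      exact ⟨j, Or.inl hj⟩
    · exact ⟨i, Or.inr ⟨h, rfl⟩⟩
  choose f hf using hex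
  have hcyc : ∀ i j, B i j ≠ 0 → Rc B j i → ∃ j', B j j' ≠ 0 ∧ Rc B j' j := by
    intro i j hij hji
    obtain ⟨s, hs⟩ := hji
    have h1 : (B ^ (s + 1)) j j ≠ 0 := by
      rw [pow_succ]
      exact mul_ne hs hij
    rw [pow_succ'] at h1
    obtain ⟨j', h2, h3⟩ := ne_mul h1
    exact ⟨j', h2, ⟨s, h3⟩⟩
  have hinj : Function.Injective f := by
    intro i j hij
    rcases hf i with hi | ⟨hi, hi'⟩ <;> rcases hf j with hj | ⟨hj, hj'⟩
    · rw [hij] at hi
      exact in_unique s1 hi.1 hj.1 hi.2 hj.2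
    · exfalso
      rw [hij, hj'] at hi
      exact hj (hcyc _ _ hi.1 hi.2)
    · exfalso
      rw [← hij, hi'] at hj
      exact hi (hcyc _ _ hj.1 hj.2)
    · rw [← hi', ← hj', hij]
  refine ⟨Equiv.ofBijective f (Finite.injective_iff_bijective.1 hinj),
    fun i => (Finset.univ.filter (fun k => Rc B k i)).card, fun i => ?_, fun i j hij => ?_⟩
  · show (Finset.univ.filter (fun k => Rc B k (f i))).card = _
    congr 1
    ext k
    simp only [Finset.mem_filter, Finset.mem_univ, true_and]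
    rcases hf i with hi | ⟨-, hi'⟩
    · exact ⟨fun h => h.trans hi.2, fun h => h.trans (Rc.single hi.1)⟩
    · rw [hi']
  · by_cases hr : Rc B j i
    · left
      show j = f i
      rcases hf i with hi | ⟨hi, -⟩
      · exact out_unique s1 hij hi.1 hr hi.2
      · exact absurd ⟨j, hij, hr⟩ hi
    · right
      apply Finset.card_lt_card
      rw [Finset.ssubset_iff_of_subset]
      · refine ⟨j, ?_, ?_⟩
        · simp only [Finset.mem_filter, Finset.mem_univ, true_and]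
          exact Rc.refl B j
        · simp only [Finset.mem_filter, Finset.mem_univ, true_and]
          exact hr
      · intro k hk
        simp only [Finset.mem_filter, Finset.mem_univ, true_and] at hk ⊢
        exact hk.trans (Rc.single hij)

end

/-- Every irreducible component of `X` is a single cycle, possibly with multiplicities: there are a
permutation `π` of the indices and a height function `h`, constant on the cycles of `π`, such that
every nonzero entry `X i j` has `j = π i` or `h i < h j`. -/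
def CycleComponents (X : Mat) : Prop :=
  ∃ (π : Equiv.Perm (Fin X.1)) (h : Fin X.1 → ℕ), (∀ i, h (π i) = h i) ∧
    ∀ i j, X.2 i j ≠ 0 → j = π i ∨ h i < h j

theorem final_cycle {X Y : Mat} (hX : CycleComponents X) (hY : CycleComponents Y) :
    ShiftEq X Y ↔ SSEquiv X Y := by
  constructor
  · intro h
    obtain ⟨p, g, a1, a2⟩ := hX
    obtain ⟨p', g', b1, b2⟩ := hY
    exact conn_fin (main_ct a1 b1 a2 b2 h)
  · exact SSEquiv.shiftEq

theorem final_zero {X Y : Mat} {d : ℕ} (hX : ∀ k, trace (X.2 ^ k) ≤ d) :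
    ShiftEq X Y ↔ SSEquiv X Y := by
  constructor
  · intro h
    obtain ⟨ℓ, hl, R, S, e1, e2, e3, e4⟩ := h
    have hY : ∀ k, ℓ ≤ k → trace (Y.2 ^ k) ≤ d := by
      intro k hk
      rw [trace_seq e1 e2 e3 k hk]
      exact hX k
    exact (final_cycle (ct_of_trace hl fun k _ => hX k) (ct_of_trace hl hY)).1
      ⟨ℓ, hl, R, S, e1, e2, e3, e4⟩
  · exact SSEquiv.shiftEq

end Pool.Agent.H32.SSC
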